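import Pool.Agent.NCH.Stm
import Pool.Agent.NBC.RES

/-!
# Project NCH, module AST: the counting quantifier against a conjunction
-/

set_option autoImplicit false

namespace Pool.Agent.NCH

open Finset Pool.Agent.NegLim Pool.Agent.NLM Pool.Agent.NEG72 Pool.Agent.NPP Pool.Agent.NPQ

namespace ASTM


theorem pow96 (n : ℕ) : (2 : ℝ) ^ n ≤ (96 / 95) ^ (96 * n) := by
  rw [pow_mul]
  refine pow_le_pow_left₀ (by norm_num) ?_ n
  have h := one_add_mul_le_pow (a := (1 / 95 : ℝ)) (by norm_num) 96
  have h1 : (1 : ℝ) + 1 / 95 = 96 / 95 := by norm_num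
  rw [h1] at h
  refine le_trans ?_ h
  norm_num

open Classical in
/-- The chain: a good step. -/
theorem chain (K W m : ℕ) (hm : 2304 * (K + W + 1) ≤ m) (A : ℕ → ℝ) (M R : ℝ) (hM : 0 < M)
    (hR : 0 < R) (hA : ∀ i, i < m → A (i + 1) ≤ A i) (h0 : A 0 ≤ 2 * M)
    (hAm : M ≤ 2 ^ (K + W) * A m) (r : Fin m → ℝ) (hr : ∀ i, r i ≤ R)
    (hsum : m * R < 12 * ∑ i, r i) :
    ∃ i : Fin m, 0 < A i ∧ 95 * A i ≤ 96 * A (i + 1) ∧ R < 24 * r i := by
  have hAmpos : 0 < A m := by
    by_contra h
    have h1 : (2 : ℝ) ^ (K + W) * A m ≤ 0 :=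
      mul_nonpos_of_nonneg_of_nonpos (by positivity) (not_lt.1 h)
    linarith
  have hpos : ∀ k, k ≤ m → A m ≤ A (m - k) := by
    intro k
    induction k with
    | zero => intro _; exact le_refl _
    | succ k ih =>
      intro hk
      have h1 := hA (m - (k + 1)) (by omega)
      have h2 : m - (k + 1) + 1 = m - k := by omega
      rw [h2] at h1
      exact (ih (by omega)).trans h1
  set bc : ℕ → ℕ := fun i => ((range i).filter fun j => 96 * A (j + 1) < 95 * A j).card with hbc
  have hind : ∀ i, i ≤ m → A i * (96 / 95) ^ bc i ≤ A 0 := by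
    intro i
    induction i with
    | zero => intro _; simp [hbc]
    | succ i ih =>
      intro hi
      have h1 := ih (by omega)
      by_cases hb : 96 * A (i + 1) < 95 * A i
      · have h2 : bc (i + 1) = bc i + 1 := by
          simp only [hbc]
          rw [Finset.range_add_one, Finset.filter_insert, if_pos hb, Finset.card_insert_of_notMem]
          simp
        rw [h2, pow_succ]
        have h3 : A (i + 1) * (96 / 95) ≤ A i := by linarith
        calc A (i + 1) * ((96 / 95) ^ bc i * (96 / 95)) = (A (i + 1) * (96 / 95)) * (96 / 95) ^ bc i := by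
              ring
          _ ≤ A i * (96 / 95) ^ bc i := mul_le_mul_of_nonneg_right h3 (by positivity)
          _ ≤ A 0 := h1
      · have h2 : bc (i + 1) = bc i := by
          simp only [hbc]
          rw [Finset.range_add_one, Finset.filter_insert, if_neg hb]
        rw [h2]
        exact (mul_le_mul_of_nonneg_right (hA i (by omega)) (by positivity)).trans h1
  have hbm : bc m ≤ 96 * (K + W + 1) := by
    by_contra hcon
    have h1 := hind m (le_refl m)
    have h2 : (96 / 95 : ℝ) ^ (96 * (K + W + 1) + 1) ≤ (96 / 95) ^ bc m :=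
      pow_le_pow_right₀ (by norm_num) (by omega)
    have h3 := pow96 (K + W + 1)
    have h4 : A m * (96 / 95) ^ bc m ≤ 2 * (2 ^ (K + W) * A m) := by linarith
    have h5 : A m * (2 ^ (K + W + 1) * (96 / 95)) ≤ A m * (96 / 95) ^ bc m := by
      refine mul_le_mul_of_nonneg_left (le_trans ?_ h2) hAmpos.le
      rw [pow_succ (96 / 95 : ℝ)]
      exact mul_le_mul_of_nonneg_right h3 (by norm_num)
    have h6 : (0 : ℝ) < A m * 2 ^ (K + W) := by positivity
    have h7 : A m * (2 ^ (K + W + 1) * (96 / 95)) = (A m * 2 ^ (K + W)) * (192 / 95) := by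
      rw [pow_succ]
      ring
    have h8 : 2 * (2 ^ (K + W) * A m) = (A m * 2 ^ (K + W)) * 2 := by ring
    rw [h7] at h5
    rw [h8] at h4
    linarith
  by_contra hcon
  push Not at hcon
  have hle : ∀ i : Fin m, r i ≤ R / 24 + (if 96 * A ((i : ℕ) + 1) < 95 * A (i : ℕ) then R else 0) := by
    intro i
    split_ifs with hb
    · linarith [hr i]
    · have h1 : 0 < A (i : ℕ) := by
        have h2 := hpos (m - i) (by omega)
        have h3 : m - (m - (i : ℕ)) = i := by omega
        rw [h3] at h2
        linarith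
      have h4 := hcon i h1 (not_lt.1 hb)
      linarith
  have h1 : ∑ i : Fin m, r i ≤ m * (R / 24) + bc m * R := by
    refine (Finset.sum_le_sum fun i _ => hle i).trans (le_of_eq ?_)
    rw [Finset.sum_add_distrib]
    congr 1
    · simp
    · rw [← Finset.sum_range fun i => if 96 * A (i + 1) < 95 * A i then R else 0,
        ← Finset.sum_filter, Finset.sum_const, nsmul_eq_mul]
  have h2 : (bc m : ℝ) * 24 ≤ m := by
    have h3 : bc m * 24 ≤ m := by omega
    exact_mod_cast h3
  have h3 : (bc m : ℝ) * 24 * R ≤ m * R := mul_le_mul_of_nonneg_right h2 hR.le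
  linarith

theorem exists_tau {T : Type} [Fintype T] (a s : T → ℝ) (C : ℝ) (ha : ∀ τ, 0 ≤ a τ)
    (hs : ∀ τ, a τ = 0 → s τ ≤ 0) (hpos : 0 < ∑ τ, a τ)
    (h : 95 * C * ∑ τ, a τ ≤ 96 * ∑ τ, s τ) : ∃ τ, 0 < a τ ∧ 95 * C * a τ ≤ 96 * s τ := by
  by_contra hcon
  push Not at hcon
  have h1 : ∀ τ ∈ (univ : Finset T), 96 * s τ ≤ 95 * C * a τ := by
    intro τ _
    rcases (ha τ).eq_or_lt with h2 | h2
    · rw [← h2]
      have := hs τ h2.symm
      linarith
    · exact (hcon τ h2).le
  obtain ⟨τ₀, _, hτ₀⟩ : ∃ τ ∈ (univ : Finset T), 0 < a τ := by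
    by_contra h2
    push Not at h2
    exact absurd (Finset.sum_nonpos h2) (not_le.2 hpos)
  have h3 : ∑ τ, 96 * s τ < ∑ τ, 95 * C * a τ :=
    Finset.sum_lt_sum h1 ⟨τ₀, Finset.mem_univ _, hcon τ₀ hτ₀⟩
  rw [← Finset.mul_sum, ← Finset.mul_sum] at h3
  linarith

open Classical in
theorem block {Ω P Q Y : Type} [Fintype Ω] [Fintype P] [Fintype Q] (h : Ω → Y → Bool) (top : Y)
    (fb : Y → Bool) (pos : P → Y) (neg : Q → Y) (θ : ℝ) (W K₁ : ℕ) (hK : W + 6 ≤ K₁)
    (hP : 0 < Fintype.card P) (htop : ∀ w y, h w y = true → h w top = true)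
    (hfb : ∀ y, (fb y = true → (θ + 1 / 2 ^ W) * Fintype.card Ω ≤ cnt h y) ∧
      (fb y = false → (cnt h y : ℝ) ≤ θ * Fintype.card Ω))
    (alt : ∀ w, 2 ^ K₁ * ((univ : Finset Q).filter fun q => h w (neg q) = false).card <
        Fintype.card Q ∨
      12 * ((univ : Finset P).filter fun p => h w (pos p) = true).card ≤ Fintype.card P)
    (e : Y → ℝ) (he : ∀ y, e y = if fb y = true then (cnt h y : ℝ) - θ * Fintype.card Ω else 0)
    (he0 : 0 < e top) (hsum : 95 * Fintype.card P * e top ≤ 96 * ∑ p, e (pos p)) :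
    24 * (((univ : Finset Q).filter fun q => fb (neg q) = false).card : ℝ) ≤ Fintype.card Q := by
  -- the number of the `w` lost at `y`
  set D : Y → ℝ := fun y => ∑ w, if h w top = true ∧ h w y = false then (1 : ℝ) else 0 with hD
  have hcnt : ∀ y, (cnt h y : ℝ) = ∑ w, if h w y = true then (1 : ℝ) else 0 := by
    intro y
    unfold cnt
    rw [Finset.card_filter]
    push_cast
    rfl
  have hDN : ∀ y, (cnt h top : ℝ) - cnt h y = D y := by
    intro y
    rw [hcnt, hcnt, ← Finset.sum_sub_distrib]
    refine Finset.sum_congr rfl fun w _ => ?_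
    cases h1 : h w y with
    | true => simp [htop w y h1]
    | false => cases h2 : h w top <;> simp
  have hDnn : ∀ y, 0 ≤ D y := fun y => Finset.sum_nonneg fun w _ => by split_ifs <;> norm_num
  have hftop : fb top = true := by
    by_contra h1
    rw [he top, if_neg h1] at he0
    exact lt_irrefl _ he0
  set w₀ : ℝ := (Fintype.card Ω : ℝ) with hw₀
  have hw₀nn : 0 ≤ w₀ := by positivity
  have he0v : e top = (cnt h top : ℝ) - θ * w₀ := by rw [he top, if_pos hftop]
  have hgap : w₀ ≤ 2 ^ W * e top := by
    have h1 := (hfb top).1 hftop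
    rw [he0v]
    have h2 : w₀ / 2 ^ W ≤ (cnt h top : ℝ) - θ * w₀ := by
      have h3 : (θ + 1 / 2 ^ W) * w₀ = θ * w₀ + w₀ / 2 ^ W := by ring
      rw [h3] at h1
      linarith
    rw [div_le_iff₀ (by positivity)] at h2
    linarith
  have hepos : ∀ y, fb y = true → e top - e y = D y := by
    intro y hy
    rw [he y, if_pos hy, he0v, ← hDN]
    ring
  have heneg : ∀ y, ¬ fb y = true → e y = 0 := fun y hy => by rw [he y, if_neg hy]
  have hele : ∀ y, e y ≤ e top := by
    intro y
    by_cases hy : fb y = true
    · have := hepos y hy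
      have := hDnn y
      linarith
    · rw [heneg y hy]
      exact he0.le
  set nP : ℝ := (Fintype.card P : ℝ) with hnP
  have hnPpos : 0 < nP := by
    rw [hnP]
    exact_mod_cast hP
  have hdef : ∑ p, (e top - e (pos p)) ≤ nP * e top / 96 := by
    rw [Finset.sum_sub_distrib, Finset.sum_const, nsmul_eq_mul, Finset.card_univ, ← hnP]
    linarith
  set S : Finset P := univ.filter fun p => e top ≤ 2 * e (pos p) with hS
  have hSc : ((univ.filter fun p => ¬ e top ≤ 2 * e (pos p)).card : ℝ) ≤ nP / 48 := by
    have h1 : ((univ.filter fun p => ¬ e top ≤ 2 * e (pos p)).card : ℝ) * (e top / 2) ≤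
        ∑ p, (e top - e (pos p)) := by
      calc ((univ.filter fun p => ¬ e top ≤ 2 * e (pos p)).card : ℝ) * (e top / 2)
          = ∑ p ∈ univ.filter fun p => ¬ e top ≤ 2 * e (pos p), (e top / 2) := by
            rw [Finset.sum_const, nsmul_eq_mul]
        _ ≤ ∑ p ∈ univ.filter fun p => ¬ e top ≤ 2 * e (pos p), (e top - e (pos p)) := by
            refine Finset.sum_le_sum fun p hp => ?_
            rw [Finset.mem_filter, not_le] at hp
            linarith [hp.2]
        _ ≤ ∑ p, (e top - e (pos p)) :=
            Finset.sum_le_sum_of_subset_of_nonneg (Finset.filter_subset _ _)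
              fun p _ _ => sub_nonneg.2 (hele _)
    have h2 := h1.trans hdef
    have h3 : ((univ.filter fun p => ¬ e top ≤ 2 * e (pos p)).card : ℝ) * (e top / 2) ≤
        nP / 48 * (e top / 2) := by linarith
    exact le_of_mul_le_mul_right h3 (by linarith)
  set O₂ : Finset Ω := univ.filter fun w => h w top = true ∧
    12 * ((univ : Finset P).filter fun p => h w (pos p) = true).card ≤ Fintype.card P with hO₂
  have hO₂c : (O₂.card : ℝ) ≤ e top / 48 := by
    have h1 : ∀ p ∈ S, D (pos p) = e top - e (pos p) := by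
      intro p hp
      rw [hS, Finset.mem_filter] at hp
      refine (hepos _ ?_).symm
      by_contra h2
      rw [heneg _ h2] at hp
      linarith [hp.2]
    have h2 : ∀ w ∈ O₂, nP / 2 ≤ ∑ p ∈ S, if h w top = true ∧ h w (pos p) = false then
        (1 : ℝ) else 0 := by
      intro w hw
      rw [hO₂, Finset.mem_filter] at hw
      have h3 : ∑ p ∈ S, (if h w top = true ∧ h w (pos p) = false then (1 : ℝ) else 0) =
          ∑ p, (if e top ≤ 2 * e (pos p) then (if h w (pos p) = false then (1 : ℝ) else 0) else 0) := by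
        rw [hS, Finset.sum_filter]
        refine Finset.sum_congr rfl fun p _ => ?_
        simp only [hw.2.1, true_and]
      have h4 : ∀ p : P, (1 : ℝ) - (if h w (pos p) = true then 1 else 0) -
          (if ¬ e top ≤ 2 * e (pos p) then 1 else 0) ≤
          (if e top ≤ 2 * e (pos p) then (if h w (pos p) = false then (1 : ℝ) else 0) else 0) := by
        intro p
        cases h5 : h w (pos p) <;> by_cases h6 : e top ≤ 2 * e (pos p) <;> simp [h6]
      have h5 := Finset.sum_le_sum fun p (_ : p ∈ (univ : Finset P)) => h4 p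
      rw [h3]
      refine le_trans ?_ h5
      rw [Finset.sum_sub_distrib, Finset.sum_sub_distrib]
      have h6 : ∑ p : P, (1 : ℝ) = nP := by simp [hnP]
      have h7 : ∑ p : P, (if h w (pos p) = true then (1 : ℝ) else 0) =
          (((univ : Finset P).filter fun p => h w (pos p) = true).card : ℝ) := by
        rw [Finset.card_filter]
        push_cast
        rfl
      have h8 : ∑ p : P, (if ¬ e top ≤ 2 * e (pos p) then (1 : ℝ) else 0) =
          ((univ.filter fun p => ¬ e top ≤ 2 * e (pos p)).card : ℝ) := by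
        rw [Finset.card_filter]
        push_cast
        rfl
      have h9 : 12 * (((univ : Finset P).filter fun p => h w (pos p) = true).card : ℝ) ≤ nP := by
        rw [hnP]
        exact_mod_cast hw.2.2
      rw [h6, h7, h8]
      linarith
    have h3 : (O₂.card : ℝ) * (nP / 2) ≤ nP * e top / 96 := by
      calc (O₂.card : ℝ) * (nP / 2) = ∑ w ∈ O₂, nP / 2 := by
            rw [Finset.sum_const, nsmul_eq_mul]
        _ ≤ ∑ w ∈ O₂, ∑ p ∈ S, (if h w top = true ∧ h w (pos p) = false then (1 : ℝ) else 0) :=
            Finset.sum_le_sum h2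
        _ ≤ ∑ w, ∑ p ∈ S, (if h w top = true ∧ h w (pos p) = false then (1 : ℝ) else 0) :=
            Finset.sum_le_sum_of_subset_of_nonneg (Finset.subset_univ _) fun w _ _ =>
              Finset.sum_nonneg fun p _ => by split_ifs <;> norm_num
        _ = ∑ p ∈ S, D (pos p) := by rw [Finset.sum_comm]
        _ = ∑ p ∈ S, (e top - e (pos p)) := Finset.sum_congr rfl h1
        _ ≤ ∑ p, (e top - e (pos p)) :=
            Finset.sum_le_sum_of_subset_of_nonneg (Finset.subset_univ _)
              fun p _ _ => sub_nonneg.2 (hele _)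
        _ ≤ nP * e top / 96 := hdef
    have h4 : (O₂.card : ℝ) * (nP / 2) ≤ e top / 48 * (nP / 2) := by linarith
    exact le_of_mul_le_mul_right h4 (by linarith)
  -- the negative tests
  set nQ : ℝ := (Fintype.card Q : ℝ) with hnQ
  have hnQnn : 0 ≤ nQ := by positivity
  set r : ℝ := (((univ : Finset Q).filter fun q => fb (neg q) = false).card : ℝ) with hr
  have h1 : r * e top ≤ ∑ q, D (neg q) := by
    calc r * e top = ∑ q ∈ univ.filter fun q => fb (neg q) = false, e top := by
          rw [Finset.sum_const, nsmul_eq_mul]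
      _ ≤ ∑ q ∈ univ.filter fun q => fb (neg q) = false, D (neg q) := by
          refine Finset.sum_le_sum fun q hq => ?_
          rw [Finset.mem_filter] at hq
          have h2 := (hfb (neg q)).2 hq.2
          rw [← hDN, he0v]
          linarith
      _ ≤ ∑ q, D (neg q) :=
          Finset.sum_le_sum_of_subset_of_nonneg (Finset.subset_univ _) fun q _ _ => hDnn _
  have h2 : ∀ w : Ω, (∑ q, if h w top = true ∧ h w (neg q) = false then (1 : ℝ) else 0) ≤
      (if w ∈ O₂ then nQ else 0) + nQ / 2 ^ K₁ := by
    intro w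
    have h3 : (∑ q, if h w top = true ∧ h w (neg q) = false then (1 : ℝ) else 0) ≤
        (((univ : Finset Q).filter fun q => h w (neg q) = false).card : ℝ) := by
      rw [Finset.card_filter]
      push_cast
      refine Finset.sum_le_sum fun q _ => ?_
      by_cases h4 : h w (neg q) = false
      · rw [if_pos h4]
        split_ifs <;> norm_num
      · rw [if_neg h4, if_neg fun h5 => h4 h5.2]
    by_cases hw : w ∈ O₂
    · rw [if_pos hw]
      have h4 : (((univ : Finset Q).filter fun q => h w (neg q) = false).card : ℝ) ≤ nQ := by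
        rw [hnQ]
        exact_mod_cast Finset.card_le_univ _
      have h5 : 0 ≤ nQ / 2 ^ K₁ := by positivity
      linarith
    · rw [if_neg hw, zero_add]
      by_cases ht : h w top = true
      · have h4 : ¬ 12 * ((univ : Finset P).filter fun p => h w (pos p) = true).card ≤
            Fintype.card P := by
          intro h5
          exact hw (Finset.mem_filter.2 ⟨Finset.mem_univ _, ht, h5⟩)
        have h5 := (alt w).resolve_right h4
        have h6 : (2 : ℝ) ^ K₁ * (((univ : Finset Q).filter fun q => h w (neg q) = false).card : ℝ) ≤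
            nQ := by
          rw [hnQ]
          exact_mod_cast h5.le
        refine h3.trans ?_
        rw [le_div_iff₀ (by positivity)]
        linarith
      · have h4 : (∑ q, if h w top = true ∧ h w (neg q) = false then (1 : ℝ) else 0) = 0 :=
          Finset.sum_eq_zero fun q _ => if_neg fun h5 => ht h5.1
        rw [h4]
        positivity
  have h3 : ∑ q, D (neg q) ≤ O₂.card * nQ + w₀ * (nQ / 2 ^ K₁) := by
    calc ∑ q, D (neg q) = ∑ w, ∑ q, (if h w top = true ∧ h w (neg q) = false then (1 : ℝ) else 0) := by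
          rw [Finset.sum_comm]
      _ ≤ ∑ w : Ω, ((if w ∈ O₂ then nQ else 0) + nQ / 2 ^ K₁) := Finset.sum_le_sum fun w _ => h2 w
      _ = O₂.card * nQ + w₀ * (nQ / 2 ^ K₁) := by
          rw [Finset.sum_add_distrib, ← Finset.sum_filter, Finset.sum_const, Finset.sum_const,
            nsmul_eq_mul, nsmul_eq_mul, Finset.card_univ]
          have h9 : ((univ : Finset Ω).filter fun w => w ∈ O₂) = O₂ := by
            ext w
            simp
          rw [h9]
  have h4 : w₀ * (nQ / 2 ^ K₁) ≤ e top * nQ / 64 := by
    have h5 : (2 : ℝ) ^ W * 64 ≤ 2 ^ K₁ := by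
      have h6 : (2 : ℝ) ^ (W + 6) ≤ 2 ^ K₁ := pow_le_pow_right₀ (by norm_num) hK
      rw [pow_add] at h6
      norm_num at h6
      exact h6
    have h6 : w₀ * (nQ / 2 ^ K₁) ≤ (2 ^ W * e top) * (nQ / 2 ^ K₁) :=
      mul_le_mul_of_nonneg_right hgap (by positivity)
    refine h6.trans ?_
    rw [← mul_div_assoc, div_le_div_iff₀ (by positivity) (by norm_num)]
    have h7 : 0 ≤ e top * nQ := mul_nonneg he0.le hnQnn
    have h8 := mul_le_mul_of_nonneg_left h5 h7
    linarith
  have h5 : (O₂.card : ℝ) * nQ ≤ e top / 48 * nQ := mul_le_mul_of_nonneg_right hO₂c hnQnn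
  have h6 : (24 * r) * e top ≤ nQ * e top := by
    have h7 : 0 ≤ e top * nQ := mul_nonneg he0.le hnQnn
    linarith
  exact le_of_mul_le_mul_right h6 he0


end ASTM

open Classical in
theorem AST_thm : Stmt_AST := by
  intro hLVC T W K K₁ d m V F hK hm hF
  obtain ⟨P, Q, iP, iQ, pos, neg, hP, hQ, hpos, hneg, halt⟩ := hF
  have hm0 : 0 < m := by omega
  refine ⟨Fin m → P, Fin m × Q, inferInstance, inferInstance, fun τ x => pos (τ x.1) x.2,
    fun q x => if x.1 = q.1 then neg q.2 x.2 else true, ?_, ?_, ?_, ?_, ?_⟩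
  · rw [Fintype.card_fun]
    exact pow_pos hP _
  · rw [Fintype.card_prod, Fintype.card_fin]
    exact Nat.mul_pos hm0 hQ
  · intro τ i
    exact hpos (τ i)
  · intro q h
    have h1 := h q.1
    simp only [if_true] at h1
    exact hneg q.2 h1
  intro f hf
  by_contra hcon
  rw [not_or, not_lt, not_le] at hcon
  obtain ⟨n1, n2⟩ := hcon
  have hfmono := (hLVC T W (Fin m × V) (d + 1) f hf).2.1
  cases hf with
  | @step _ Ω iΩ g θ₀ _ hΩ hg hx₀ =>
  -- the threshold
  set w₀ : ℝ := (Fintype.card Ω : ℝ) with hw₀
  have hw₀pos : 0 < w₀ := by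
    rw [hw₀]
    exact_mod_cast hΩ
  set θ : ℝ := max θ₀ (-(1 / 2 ^ W)) with hθ
  have hx : ∀ x, (f x = true → (θ + 1 / 2 ^ W) * w₀ ≤ cnt g x) ∧
      (f x = false → (cnt g x : ℝ) ≤ θ * w₀) := by
    intro x
    refine ⟨fun h => ?_, fun h => ?_⟩
    · rcases le_total θ₀ (-(1 / 2 ^ W)) with h1 | h1
      · rw [hθ, max_eq_right h1, neg_add_cancel, zero_mul]
        positivity
      · rw [hθ, max_eq_left h1]
        exact (hx₀ x).1 h
    · exact ((hx₀ x).2 h).trans (mul_le_mul_of_nonneg_right (le_max_left _ _) hw₀pos.le)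
  have hθ1 : -1 ≤ θ := by
    refine le_trans ?_ (le_max_right _ _)
    have h1 : (1 : ℝ) / 2 ^ W ≤ 1 := by
      rw [div_le_one (by positivity)]
      exact one_le_pow₀ (by norm_num)
    linarith
  -- the excess
  set e : (Fin m × V → Bool) → ℝ := fun z => if f z = true then (cnt g z : ℝ) - θ * w₀ else 0 with he
  have hgap : ∀ z, f z = true → w₀ / 2 ^ W ≤ e z := by
    intro z hz
    simp only [he, if_pos hz]
    have h1 := (hx z).1 hz
    have h2 : (θ + 1 / 2 ^ W) * w₀ = θ * w₀ + w₀ / 2 ^ W := by ring
    rw [h2] at h1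
    linarith
  have hgpos : 0 ≤ w₀ / 2 ^ W := by positivity
  have henn : ∀ z, 0 ≤ e z := by
    intro z
    by_cases hz : f z = true
    · exact hgpos.trans (hgap z hz)
    · simp only [he, if_neg hz, le_refl]
  have hcntle : ∀ z, (cnt g z : ℝ) ≤ w₀ := by
    intro z
    rw [hw₀]
    exact_mod_cast Finset.card_le_univ _
  have hele : ∀ z, e z ≤ 2 * w₀ := by
    intro z
    by_cases hz : f z = true
    · simp only [he, if_pos hz]
      have h1 : -1 * w₀ ≤ θ * w₀ := mul_le_mul_of_nonneg_right hθ1 hw₀pos.le
      linarith [hcntle z]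
    · simp only [he, if_neg hz]
      linarith
  have hgmono : ∀ w (x x' : Fin m × V → Bool), (∀ y, x y = true → x' y = true) →
      g w x = true → g w x' = true := fun w => (hLVC T W (Fin m × V) d (g w) (hg w)).2.1
  have hcmono : ∀ x x' : Fin m × V → Bool, (∀ y, x y = true → x' y = true) →
      (cnt g x : ℝ) ≤ cnt g x' := by
    intro x x' h
    have h1 : cnt g x ≤ cnt g x' := by
      unfold cnt
      refine Finset.card_le_card fun w hw => ?_
      rw [Finset.mem_filter] at hw ⊢
      exact ⟨hw.1, hgmono w x x' h hw.2⟩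
    exact_mod_cast h1
  have hemono : ∀ x x' : Fin m × V → Bool, (∀ y, x y = true → x' y = true) → e x ≤ e x' := by
    intro x x' h
    by_cases hz : f x = true
    · have hz' := hfmono x x' h hz
      simp only [he, if_pos hz, if_pos hz']
      linarith [hcmono x x' h]
    · have h1 : e x = 0 := by simp only [he, if_neg hz]
      rw [h1]
      exact henn x'
  -- the chain
  set zt : ℕ → (Fin m → P) → Fin m × V → Bool := fun i τ x =>
    if (x.1 : ℕ) < i then pos (τ x.1) x.2 else true with hzt
  set A : ℕ → ℝ := fun i => ∑ τ, e (zt i τ) with hA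
  set r : Fin m → ℝ := fun i => (((univ : Finset Q).filter fun q =>
    f (fun x : Fin m × V => if x.1 = i then neg q x.2 else true) = false).card : ℝ) with hr
  set nP : ℝ := (Fintype.card P : ℝ) with hnP
  set nQ : ℝ := (Fintype.card Q : ℝ) with hnQ
  have hnPpos : 0 < nP := by
    rw [hnP]
    exact_mod_cast hP
  have hnQpos : 0 < nQ := by
    rw [hnQ]
    exact_mod_cast hQ
  have hP'pos : (0 : ℝ) < Fintype.card (Fin m → P) := by
    rw [Fintype.card_fun]
    have h1 : 0 < Fintype.card P ^ Fintype.card (Fin m) := pow_pos hP _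
    exact_mod_cast h1
  obtain ⟨i, hAi, hAi2, hri⟩ : ∃ i : Fin m, 0 < A i ∧ 95 * A i ≤ 96 * A (i + 1) ∧ nQ < 24 * r i := by
    refine ASTM.chain K W m hm A (w₀ * Fintype.card (Fin m → P)) nQ (mul_pos hw₀pos hP'pos) hnQpos
      ?_ ?_ ?_ r ?_ ?_
    · intro i _
      refine Finset.sum_le_sum fun τ _ => hemono _ _ fun x hxx => ?_
      simp only [hzt] at hxx ⊢
      by_cases h1 : (x.1 : ℕ) < i
      · rw [if_pos h1]
        rwa [if_pos (by omega)] at hxx
      · rw [if_neg h1]
    · have h1 : A 0 ≤ ∑ τ : Fin m → P, 2 * w₀ := Finset.sum_le_sum fun τ _ => hele _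
      rw [Finset.sum_const, nsmul_eq_mul, Finset.card_univ] at h1
      linarith
    · have h1 : ((univ.filter fun τ : Fin m → P =>
          f (fun x => pos (τ x.1) x.2) = true).card : ℝ) * (w₀ / 2 ^ W) ≤ A m := by
        calc ((univ.filter fun τ : Fin m → P => f (fun x => pos (τ x.1) x.2) = true).card : ℝ) *
              (w₀ / 2 ^ W)
            = ∑ τ ∈ univ.filter fun τ : Fin m → P => f (fun x => pos (τ x.1) x.2) = true,
                w₀ / 2 ^ W := by rw [Finset.sum_const, nsmul_eq_mul]
          _ ≤ ∑ τ ∈ univ.filter fun τ : Fin m → P => f (fun x => pos (τ x.1) x.2) = true,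
                e (zt m τ) := by
              refine Finset.sum_le_sum fun τ hτ => hgap _ ?_
              rw [Finset.mem_filter] at hτ
              have h2 : zt m τ = fun x => pos (τ x.1) x.2 := by
                funext x
                simp only [hzt]
                rw [if_pos x.1.isLt]
              rw [h2]
              exact hτ.2
          _ ≤ A m := Finset.sum_le_sum_of_subset_of_nonneg (Finset.subset_univ _)
                fun τ _ _ => henn _
      have h2 : (Fintype.card (Fin m → P) : ℝ) ≤ 2 ^ K * ((univ.filter fun τ : Fin m → P =>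
          f (fun x => pos (τ x.1) x.2) = true).card : ℝ) := by
        exact_mod_cast n1
      have h3 : (2 : ℝ) ^ (K + W) * (((univ.filter fun τ : Fin m → P =>
          f (fun x => pos (τ x.1) x.2) = true).card : ℝ) * (w₀ / 2 ^ W)) ≤ 2 ^ (K + W) * A m :=
        mul_le_mul_of_nonneg_left h1 (by positivity)
      have h4 : (2 : ℝ) ^ (K + W) * (((univ.filter fun τ : Fin m → P =>
          f (fun x => pos (τ x.1) x.2) = true).card : ℝ) * (w₀ / 2 ^ W)) =
          w₀ * (2 ^ K * ((univ.filter fun τ : Fin m → P =>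
          f (fun x => pos (τ x.1) x.2) = true).card : ℝ)) := by
        rw [pow_add]
        field_simp
      rw [h4] at h3
      exact (mul_le_mul_of_nonneg_left h2 hw₀pos.le).trans h3
    · intro i
      simp only [hr, hnQ]
      exact_mod_cast Finset.card_le_univ _
    · have h1 : (((univ : Finset (Fin m × Q)).filter fun q =>
          f (fun x : Fin m × V => if x.1 = q.1 then neg q.2 x.2 else true) = false).card : ℝ) =
          ∑ i, r i := by
        simp only [hr]
        rw [Finset.card_filter, Fintype.sum_prod_type]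
        push_cast
        refine Finset.sum_congr rfl fun i _ => ?_
        rw [Finset.card_filter]
        push_cast
        rfl
      rw [← h1, hnQ]
      rw [Fintype.card_prod, Fintype.card_fin] at n2
      exact_mod_cast n2
  -- the fixing of the other blocks
  have hupd : ∀ (τ : Fin m → P) (p : P) (x : Fin m × V),
      zt (i + 1) (Function.update τ i p) x = if x.1 = i then pos p x.2 else zt i τ x := by
    intro τ p x
    simp only [hzt]
    by_cases h1 : x.1 = i
    · rw [if_pos h1, if_pos (by rw [h1]; omega), h1, Function.update_self]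
    · rw [if_neg h1, Function.update_of_ne h1]
      have h2 : (x.1 : ℕ) ≠ i := fun h => h1 (Fin.ext h)
      by_cases h3 : (x.1 : ℕ) < i
      · rw [if_pos h3, if_pos (by omega)]
      · rw [if_neg h3, if_neg (by omega)]
  have hle : ∀ (τ : Fin m → P) (y : V → Bool) (x : Fin m × V),
      (if x.1 = i then y x.2 else zt i τ x) = true → zt i τ x = true := by
    intro τ y x h
    by_cases h1 : x.1 = i
    · simp only [hzt]
      rw [if_neg (by rw [h1]; omega)]
    · rwa [if_neg h1] at h
  obtain ⟨τ, hτ1, hτ2⟩ := ASTM.exists_tau (fun τ : Fin m → P => e (zt i τ))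
    (fun τ => ∑ p, e (zt (i + 1) (Function.update τ i p))) nP (fun τ => henn _)
    (fun τ h => Finset.sum_nonpos fun p _ => by
      refine le_trans (hemono _ (zt i τ) fun x hxx => ?_) (le_of_eq h)
      rw [hupd] at hxx
      exact hle τ (pos p) x hxx) hAi (by
      have h1 := Pool.Agent.NBC.RES_thm (Fin m) P i (fun τ => e (zt (i + 1) τ))
      have h2 : ∑ τ : Fin m → P, ∑ p, e (zt (i + 1) (Function.update τ i p)) =
          nP * A (i + 1) := h1
      rw [h2]
      have h3 := mul_le_mul_of_nonneg_left hAi2 hnPpos.le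
      have h4 : ∑ τ : Fin m → P, e (zt i τ) = A i := rfl
      rw [h4]
      linarith)
  set σ : (V → Bool) → Fin m × V → Bool := fun y x => if x.1 = i then y x.2 else zt i τ x with hσ
  have hσtop : σ (fun _ => true) = zt i τ := by
    funext x
    simp only [hσ]
    by_cases h1 : x.1 = i
    · rw [if_pos h1]
      simp only [hzt]
      rw [if_neg (by rw [h1]; omega)]
    · rw [if_neg h1]
  have hproj : IsProj σ := by
    intro x
    by_cases h1 : x.1 = i
    · refine Or.inr (Or.inl ⟨x.2, ?_⟩)
      funext y
      simp only [hσ, if_pos h1]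
    · refine Or.inr (Or.inr ⟨zt i τ x, ?_⟩)
      funext y
      simp only [hσ, if_neg h1]
  have hfin := ASTM.block (fun w y => g w (σ y)) (fun _ => true) (fun y => f (σ y)) pos neg θ W K₁ hK
    hP (fun w y h => by
      show g w (σ fun _ => true) = true
      rw [hσtop]
      exact hgmono w (σ y) (zt i τ) (fun x hxx => hle τ y x hxx) h)
    (fun y => hx (σ y))
    (fun w => halt (fun y => g w (σ y)) ((hLVC T W (Fin m × V) d (g w) (hg w)).1 V σ hproj))
    (fun y => e (σ y)) (fun y => rfl) (by
      show 0 < e (σ fun _ => true)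
      rw [hσtop]
      exact hτ1) (by
      show 95 * nP * e (σ fun _ => true) ≤ 96 * ∑ p, e (σ (pos p))
      rw [hσtop]
      have h1 : ∀ p, zt (i + 1) (Function.update τ i p) = σ (pos p) := by
        intro p
        funext x
        exact hupd τ p x
      simp only [h1] at hτ2
      exact hτ2)
  have hlast : r i ≤ (((univ : Finset Q).filter fun q => f (σ (neg q)) = false).card : ℝ) := by
    simp only [hr]
    have h1 : ((univ : Finset Q).filter fun q =>
        f (fun x : Fin m × V => if x.1 = i then neg q x.2 else true) = false).card ≤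
        ((univ : Finset Q).filter fun q => f (σ (neg q)) = false).card := by
      refine Finset.card_le_card fun q hq => ?_
      rw [Finset.mem_filter] at hq ⊢
      refine ⟨hq.1, ?_⟩
      by_contra h2
      have h3 := hfmono (σ (neg q)) (fun x : Fin m × V => if x.1 = i then neg q x.2 else true)
        (fun x hxx => by
          simp only [hσ] at hxx
          by_cases h4 : x.1 = i
          · rw [if_pos h4] at hxx ⊢
            exact hxx
          · rw [if_neg h4]) (by simpa using h2)
      rw [hq.2] at h3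
      exact absurd h3 (by simp)
    exact_mod_cast h1
  have h24 : 24 * (((univ : Finset Q).filter fun q => f (σ (neg q)) = false).card : ℝ) ≤ nQ := hfin
  linarith

end Pool.Agent.NCH
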