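import Pool.Agent.NCH.Stm
import Pool.Agent.NPP.CMP

/-!
# Module BSC: one graph
-/

set_option autoImplicit false

namespace Pool.Agent.NCH

open Finset Pool.Agent.NegLim Pool.Agent.NLM Pool.Agent.NEG72 Pool.Agent.NPP Pool.Agent.NPQ

/-- Module BSC. -/
theorem BSC_thm : Stmt_BSC := by
  intro hDI1 v k b h p T W K hv h1 hk hp hb hT hD2 hbig
  have h4 : 1 ≤ 2 * h - 1 := by omega
  have hk2 : 2 ≤ k - 1 := by nlinarith
  have hb1 : 0 < b := by
    have h5 : 1 ≤ p * (2 * h) := by nlinarith
    omega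
  have hnb : Nonempty (Fin b) := ⟨⟨0, hb1⟩⟩
  have hnk : Nonempty (Fin (k - 1)) := ⟨⟨0, by omega⟩⟩
  have hP : Fintype.card (Fin k → Fin b) = b ^ k := by
    rw [Fintype.card_fun, Fintype.card_fin, Fintype.card_fin]
  have hQ : Fintype.card (Fin v → Fin (k - 1)) = (k - 1) ^ v := by
    rw [Fintype.card_fun, Fintype.card_fin, Fintype.card_fin]
  have hkk : 0 < (k - 1) ^ v := pow_pos (by omega) v
  refine ⟨Fin k → Fin b, Fin v → Fin (k - 1), inferInstance, inferInstance, posG hv, negIn,
    Fintype.card_pos, Fintype.card_pos, fun τ => CMPM.clq_posG hv τ, ?_, ?_⟩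
  · intro χ hχ
    rw [clq_iff] at hχ
    exact not_hasClique_negIn (by omega) χ hχ
  · intro f hf
    cases hf with
    | base hF =>
      rw [hP, hQ]
      rcases hDI1 v k b h p T 12 hv f h1 hk hp hb (by norm_num) hT hD2 hF with h5 | h5
      · left
        have h6 : 2 ^ p * (2 ^ K * ((univ : Finset (Fin v → Fin (k - 1))).filter
            fun χ => f (negIn χ) = false).card) < 2 ^ p * (k - 1) ^ v := by
          calc _ = 2 ^ K * (2 ^ p * ((univ : Finset (Fin v → Fin (k - 1))).filter
                fun χ => f (negIn χ) = false).card) := by ring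
            _ ≤ 2 ^ K * (T * (4 * (p * (2 * h)) ^ (4 * h)) * (k - 1) ^ v) :=
                Nat.mul_le_mul_left _ h5
            _ = 2 ^ K * (T * (4 * (p * (2 * h)) ^ (4 * h))) * (k - 1) ^ v := by ring
            _ < _ := Nat.mul_lt_mul_of_pos_right hbig hkk
        exact Nat.lt_of_mul_lt_mul_left h6
      · exact Or.inr h5

end Pool.Agent.NCH
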