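import Pool.Agent.NCH.Stm
import Pool.Agent.NPQ.CMV

/-!
# Project NCH, module CMC: the assembly
-/

set_option autoImplicit false

namespace Pool.Agent.NCH

open Finset Pool.Agent.NegLim Pool.Agent.NLM Pool.Agent.NEG72 Pool.Agent.NPP Pool.Agent.NPQ

namespace CMCM

open Pool.Agent.NPQ.CMTM (NN NN_lt NN_mono Phi_eq card_wit)

section Inp

variable {E V : Type} {m : ℕ} (ev : E ≃ Fin m × V)

/-- `m` inputs as one input. -/
def fl (z : Fin m → V → Bool) : E → Bool := fun y => z (ev y).1 (ev y).2

/-- one variable input -/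
theorem proj (z : Fin m → V → Bool) (i : Fin m) :
    IsProj (fun (y : V → Bool) => fl ev (Function.update z i y)) := by
  intro y₀
  by_cases hj : (ev y₀).1 = i
  · refine Or.inr (Or.inl ⟨(ev y₀).2, ?_⟩)
    funext y
    show Function.update z i y (ev y₀).1 (ev y₀).2 = y (ev y₀).2
    rw [hj, Function.update_self]
  · refine Or.inr (Or.inr ⟨z (ev y₀).1 (ev y₀).2, ?_⟩)
    funext y
    show Function.update z i y (ev y₀).1 (ev y₀).2 = z (ev y₀).1 (ev y₀).2
    rw [Function.update_of_ne hj]

/-- the input number `i` is below the input which is `true` everywhere -/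
theorem fl_le (z : Fin m → V → Bool) (i : Fin m) (y : V → Bool)
    (e : E) (he : fl ev (Function.update z i y) e = true) :
    fl ev (Function.update z i fun _ => true) e = true := by
  unfold fl at he ⊢
  by_cases hj : (ev e).1 = i
  · rw [hj, Function.update_self]
  · rw [Function.update_of_ne hj] at he ⊢
    exact he

theorem fl_symm (z : Fin m → V → Bool) (i : Fin m) :
    (fun y => fl ev z (ev.symm (i, y))) = z i := by
  funext y
  show z (ev (ev.symm (i, y))).1 (ev (ev.symm (i, y))).2 = z i y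
  rw [Equiv.apply_symm_apply]

end Inp

/-! ### the potential -/

section Pot

variable {E : Type} {s t n : ℕ}

theorem accQ_le (C : NCirc E s (n + t)) (b : ℕ) (bs : List (ℕ × ℕ)) (d : Fin n → Bool)
    (x : E → Bool) : (accQ C b bs d x : ℝ) ≤ 2 ^ (s + b) := by
  rw [← card_wit]
  unfold accQ
  exact_mod_cast card_le_univ _

/-- the level of the answer number `l` -/
noncomputable def LL (q W : ℕ) (C : NCirc E s (n + t)) (b : ℕ) (bs : List (ℕ × ℕ)) (l : Fin n)
    (a : (E → Bool) → Fin n → Bool) (θ : (Fin n → Bool) → ℝ) (x : E → Bool) : ℕ :=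
  lev W (θ (hist q l (a x))) ((accQ C b bs (hist q l (a x)) x : ℝ) / 2 ^ (s + b)) (a x l = true)

theorem LL_le (hLEV : Stmt_LEV) (q W : ℕ) (C : NCirc E s (n + t)) (b : ℕ) (bs : List (ℕ × ℕ))
    (l : Fin n) (a : (E → Bool) → Fin n → Bool) (θ : (Fin n → Bool) → ℝ)
    (hθ : ∀ d, -(1 / 2 ^ W) ≤ θ d) (x : E → Bool) : LL q W C b bs l a θ x ≤ W + 2 := by
  refine hLEV.1 W _ _ _ (hθ _) ?_
  rw [div_le_one (by positivity)]
  exact accQ_le C b bs _ x

/-- more witnesses -/
def Gr (C : NCirc E s (n + t)) (b : ℕ) (bs : List (ℕ × ℕ)) : Prop :=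
  ∀ x x' : E → Bool, (∀ e, x e = true → x' e = true) → Phi C x = Phi C x' →
    ∀ d : Fin n → Bool, accQ C b bs d x ≤ accQ C b bs d x'

theorem ans_mono {q W : ℕ} {C : NCirc E s (n + t)} {b : ℕ} {bs : List (ℕ × ℕ)} (hM : Gr C b bs)
    {l : Fin n} {a : (E → Bool) → Fin n → Bool} {θ : (Fin n → Bool) → ℝ}
    (hA : GapQ q W C b bs l a θ) {x x' : E → Bool} (h : ∀ e, x e = true → x' e = true)
    (hP : Phi C x = Phi C x') (hh : hist q l (a x) = hist q l (a x')) (hx : a x l = true) :
    a x' l = true := by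
  by_contra h1
  rw [Bool.not_eq_true] at h1
  have h2 := (hA x).1 hx
  have h3 := (hA x').2 h1
  have h4 := hM x x' h hP (hist q l (a x'))
  rw [hh] at h2
  have h5 : (accQ C b bs (hist q l (a x')) x : ℝ) ≤ accQ C b bs (hist q l (a x')) x' := by
    exact_mod_cast h4
  have h6 : (0 : ℝ) < 1 / 2 ^ W * 2 ^ (s + b) := by positivity
  nlinarith

theorem LL_mono (hLEV : Stmt_LEV) {q W : ℕ} {C : NCirc E s (n + t)} {b : ℕ}
    {bs : List (ℕ × ℕ)} (hM : Gr C b bs) {l : Fin n} {a : (E → Bool) → Fin n → Bool}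
    {θ : (Fin n → Bool) → ℝ}
    (hA : GapQ q W C b bs l a θ) {x x' : E → Bool} (h : ∀ e, x e = true → x' e = true)
    (hP : Phi C x = Phi C x') (hh : hist q l (a x) = hist q l (a x')) :
    LL q W C b bs l a θ x ≤ LL q W C b bs l a θ x' ∧
      (LL q W C b bs l a θ x = LL q W C b bs l a θ x' → a x l = a x' l) := by
  have h4 := hM x x' h hP (hist q l (a x'))
  have h5 : (accQ C b bs (hist q l (a x')) x : ℝ) ≤ accQ C b bs (hist q l (a x')) x' := by
    exact_mod_cast h4
  have hm := ans_mono hM hA h hP hh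
  constructor
  · unfold LL
    rw [hh]
    exact hLEV.2.1 W _ _ _ _ _ (div_le_div_of_nonneg_right h5 (by positivity)) hm
  · intro heq
    cases h1 : a x l with
    | true => exact (hm h1).symm
    | false =>
      cases h2 : a x' l with
      | false => rfl
      | true =>
        exfalso
        unfold LL lev at heq
        rw [if_neg (by rw [h1]; exact Bool.false_ne_true), if_pos h2] at heq
        omega

theorem LL_step (hLEV : Stmt_LEV) {q W : ℕ} {C : NCirc E s (n + t)} {b : ℕ}
    {bs : List (ℕ × ℕ)} {l : Fin n}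
    {a : (E → Bool) → Fin n → Bool} {θ : (Fin n → Bool) → ℝ}
    (hA : GapQ q W C b bs l a θ) {x x' : E → Bool} (hh : hist q l (a x) = hist q l (a x'))
    (h1 : a x' l = true)
    (h2 : a x l = true → 2 * ((accQ C b bs (hist q l (a x')) x : ℝ) -
      θ (hist q l (a x')) * 2 ^ (s + b)) ≤ accQ C b bs (hist q l (a x')) x' -
      θ (hist q l (a x')) * 2 ^ (s + b)) :
    LL q W C b bs l a θ x + 1 ≤ LL q W C b bs l a θ x' := by
  have h0 : (0 : ℝ) < 2 ^ (s + b) := by positivity
  unfold LL
  rw [hh]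
  refine hLEV.2.2 W _ _ _ _ _ h1 (fun h3 => ?_) fun h3 => ?_
  · have h4 := (hA x).1 h3
    rw [hh] at h4
    rw [le_div_iff₀ h0]
    exact h4
  · have h4 := h2 h3
    have h5 : (2 : ℝ) * ((accQ C b bs (hist q l (a x')) x : ℝ) / 2 ^ (s + b) -
        θ (hist q l (a x'))) = 2 * ((accQ C b bs (hist q l (a x')) x : ℝ) -
          θ (hist q l (a x')) * 2 ^ (s + b)) / 2 ^ (s + b) := by
      field_simp
    have h6 : (accQ C b bs (hist q l (a x')) x' : ℝ) / 2 ^ (s + b) - θ (hist q l (a x')) =
        ((accQ C b bs (hist q l (a x')) x' : ℝ) -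
          θ (hist q l (a x')) * 2 ^ (s + b)) / 2 ^ (s + b) := by
      field_simp
    rw [h5, h6]
    exact div_le_div_of_nonneg_right h4 h0.le

end Pot

section PsA

variable {E : Type} {n : ℕ} {s t : Fin n → ℕ} (c q W : ℕ)
  (C : (l : Fin n) → NCirc E (s l) (n + t l)) (D : NCirc E 0 n)
  (bl : Fin n → ℕ) (bs : Fin n → List (ℕ × ℕ))
  (a : (E → Bool) → Fin n → Bool) (θ : Fin n → (Fin n → Bool) → ℝ)

/-- the potential -/
noncomputable def PsA (x : E → Bool) : ℕ :=
  NN D x + wtA c q (W + 2) (fun l => NN (C l) x)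
    (fun l => LL q W (C l) (bl l) (bs l) l a (θ l) x) (a x)

theorem PsA_le (hLEV : Stmt_LEV) (hWBV : Stmt_WBV) (hq : 0 < q) (hn : n ≤ c * q) {R : ℕ}
    (hR : ∀ l, 2 ^ (s l + (C l).nots) ≤ R) (hRD : 2 ^ D.nots ≤ R)
    (hθ : ∀ l d, -(1 / 2 ^ W) ≤ θ l d) (x : E → Bool) :
    PsA c q W C D bl bs a θ x ≤ steps c q W * R := by
  have h1 := hWBV n q c (W + 2) R (fun l => NN (C l) x)
    (fun l => LL q W (C l) (bl l) (bs l) l a (θ l) x)
    (a x) hq hn (fun l => NN_lt (C l) x (hR l))
    (fun l => LL_le hLEV q W (C l) (bl l) (bs l) l a (θ l) (hθ l) x)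
  have h2 : NN D x + 1 ≤ R := NN_lt D x (by rwa [zero_add])
  have h3 : PsA c q W C D bl bs a θ x ≤
      wtA c q (W + 2) (fun l => NN (C l) x)
        (fun l => LL q W (C l) (bl l) (bs l) l a (θ l) x) (a x) + R := by
    unfold PsA
    omega
  exact h3.trans h1

theorem PsA_step (hLEV : Stmt_LEV) (hM : ∀ l, Gr (C l) (bl l) (bs l)) (hWGV : Stmt_WGV)
    (hq : 0 < q) (hn : n ≤ c * q) (hθ : ∀ l d, -(1 / 2 ^ W) ≤ θ l d)
    (hA : ∀ l, GapQ q W (C l) (bl l) (bs l) l a (θ l)) {x x' : E → Bool}
    (h : ∀ e, x e = true → x' e = true) :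
    PsA c q W C D bl bs a θ x ≤ PsA c q W C D bl bs a θ x' ∧
      ((Phi D x ≠ Phi D x' ∨ ∃ l, Phi (C l) x ≠ Phi (C l) x' ∨
        (hist q l (a x) = hist q l (a x') ∧ a x' l = true ∧
          (a x l = true → 2 * ((accQ (C l) (bl l) (bs l) (hist q l (a x')) x : ℝ) -
            θ l (hist q l (a x')) * 2 ^ (s l + bl l)) ≤
            accQ (C l) (bl l) (bs l) (hist q l (a x')) x' -
            θ l (hist q l (a x')) * 2 ^ (s l + bl l)))) →
        PsA c q W C D bl bs a θ x + 1 ≤ PsA c q W C D bl bs a θ x') := by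
  have hw := hWGV n q c (W + 2) (fun l => NN (C l) x) (fun l => NN (C l) x')
    (fun l => LL q W (C l) (bl l) (bs l) l a (θ l) x)
    (fun l => LL q W (C l) (bl l) (bs l) l a (θ l) x') (a x) (a x') hq hn
    (fun l => LL_le hLEV q W (C l) (bl l) (bs l) l a (θ l) (hθ l) x)
    (fun l => LL_le hLEV q W (C l) (bl l) (bs l) l a (θ l) (hθ l) x')
    (fun l => NN_mono (C l) h)
    (fun l h1 h2 =>
      ⟨(LL_mono hLEV (hM l) (hA l) h (Phi_eq (C l) h1) h2).1,
        (LL_mono hLEV (hM l) (hA l) h (Phi_eq (C l) h1) h2).2,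
        ans_mono (hM l) (hA l) h (Phi_eq (C l) h1) h2⟩)
  have hd := NN_mono D h
  constructor
  · unfold PsA
    exact Nat.add_le_add hd hw.1
  · intro h1
    by_cases h2 : NN D x = NN D x'
    · have h3 : ∃ l, Phi (C l) x ≠ Phi (C l) x' ∨
          (hist q l (a x) = hist q l (a x') ∧ a x' l = true ∧
          (a x l = true → 2 * ((accQ (C l) (bl l) (bs l) (hist q l (a x')) x : ℝ) -
            θ l (hist q l (a x')) * 2 ^ (s l + bl l)) ≤
            accQ (C l) (bl l) (bs l) (hist q l (a x')) x' -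
            θ l (hist q l (a x')) * 2 ^ (s l + bl l))) := by
        rcases h1 with h1 | h1
        · exact absurd (Phi_eq D h2) h1
        · exact h1
      obtain ⟨l, h4⟩ := h3
      have h5 := hw.2 ⟨l, by
        rcases h4 with h4 | ⟨h4, h6, h7⟩
        · exact Or.inl fun h8 => h4 (Phi_eq (C l) h8)
        · right
          have h8 := LL_step hLEV (hA l) h4 h6 h7
          exact ⟨h4, fun h9 => by
            have h10 : LL q W (C l) (bl l) (bs l) l a (θ l) x =
              LL q W (C l) (bl l) (bs l) l a (θ l) x' := h9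
            omega⟩⟩
      unfold PsA
      omega
    · have h3 := hw.1
      unfold PsA
      omega

end PsA

/-- the last witness bits -/
def wit {n t b : ℕ} (d : Fin n → Bool) (w : Fin b → Bool) (r : List Bool) : Fin (n + t) → Bool :=
  Fin.append d fun j => (List.ofFn w ++ r).getD j false

open Classical in
theorem cnt_accQ {E X : Type} {s t n : ℕ} (C : NCirc E s (n + t)) (b : ℕ) (bs : List (ℕ × ℕ))
    (d : Fin n → Bool) (σ : X → E → Bool) (y : X) :
    cnt (fun (p : (Fin s → Bool) × (Fin b → Bool)) (y : X) =>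
      decide (Cnt bs fun r => outp C (σ y) p.1 (wit d p.2 r) = true)) y = accQ C b bs d (σ y) := by
  unfold cnt accQ
  refine congrArg card (Finset.filter_congr fun p _ => ?_)
  exact decide_eq_true_iff

end CMCM

open Classical CMCM in
open Pool.Agent.NPQ.CMTM (card_wit) in
/-- Module CMC. -/
theorem CMC_thm : Stmt_CMC := by
  intro hLVC hCQL hMOC hLEV hCHN hGUE hWGV hWBV hSTT E V m T n q c W K R dd ev F s t bl bs C D a θ
    hn hq hnc hO hK hFt hN hG hR hND hGD hRD hdd hbW hθ hA hD
  obtain ⟨P, Q, iP, iQ, pos, neg, hP0, hQ0, hpos, hneg, hH⟩ := hO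
  have hneP : Nonempty P := Fintype.card_pos_iff.1 hP0
  obtain ⟨q1, q2, q3, q4⟩ := hCQL
  have hMOC' := hMOC ⟨q1, q2, q3, q4⟩
  have hM : ∀ l, Gr (C l) (bl l) (bs l) := fun l x x' h hP d =>
    hMOC' E (s l) (t l) n (C l) (hN l) x x' h hP (bl l) (bs l) d
  have hpot := fun (x x' : E → Bool) (hx : ∀ e, x e = true → x' e = true) =>
    PsA_step c q W C D bl bs a θ hLEV hM hWGV hq hnc hθ hA hx
  -- functions of the level `dd`
  have hL : ∀ (f : (V → Bool) → Bool) (d' : ℕ), d' ≤ dd → Lv T W V d' f →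
      32 * n * 2 ^ W * ((univ : Finset Q).filter fun χ => f (neg χ) = false).card <
        Fintype.card Q ∨
      12 * ((univ : Finset P).filter fun τ => f (pos τ) = true).card ≤ Fintype.card P := by
    intro f d' hd' hf
    rcases hH f ((hLVC T W V d' f hf).2.2.1 dd hd') with h | h
    · exact Or.inl (lt_of_le_of_lt (Nat.mul_le_mul_right _ hK) h)
    · exact Or.inr h
  have hmap : ∀ l, ∀ p ∈ (bs l).map fun p => (p.1, 2 ^ p.1 - 1), p.1 ≤ W := by
    intro l p hp
    obtain ⟨p', hp', rfl⟩ := List.mem_map.1 hp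
    exact hbW l p' hp'
  refine hCHN (V → Bool) P pos (fun _ => true) m
    (steps c q W * R) (fun z => PsA c q W C D bl bs a θ (fl ev z)) ?_ ?_ ?_
  · intro z _
    exact PsA_le c q W C D bl bs a θ hLEV hWBV hq hnc hR hRD hθ _
  · intro z _ i τ
    exact (hpot _ _ (fl_le ev z i _)).1
  · intro z hz i
    choose F' K' hfm hcm hc1 hcf using fun l => hGUE E V (s l) (n + t l) (C l)
      (hN l) (fun y => fl ev (Function.update z i y)) (proj ev z i)
      (fl ev (Function.update z i fun _ => true)) (fun y e he => fl_le ev z i y e he)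
    obtain ⟨F₁, K₁, hfm₁, hcm₁, hc1₁, hcf₁⟩ := hGUE E V 0 n D hND
      (fun y => fl ev (Function.update z i y)) (proj ev z i)
      (fl ev (Function.update z i fun _ => true)) (fun y e he => fl_le ev z i y e he)
    set aT : Fin n → Bool := a (fl ev (Function.update z i fun _ => true)) with haT
    -- the three families of functions
    let f : (l : Fin n) → (Fin (s l) → Bool) × (Fin (bl l) → Bool) → (V → Bool) → Bool :=
      fun l p y => decide (Cnt (bs l) fun r => F' l (p.1, wit (hist q l aT) p.2 r) y = true)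
    let cc : (l : Fin n) → (Fin (s l) → Bool) × (Fin (bl l) → Bool) → (V → Bool) → Bool :=
      fun l p y => decide (Cnt ((bs l).map fun p => (p.1, 2 ^ p.1 - 1))
        fun r => K' l (p.1, wit (hist q l aT) p.2 r) y = true)
    let g : (l : Fin n) → (Fin (s l) → Bool) × (Fin (bl l) → Bool) → (V → Bool) → Bool :=
      fun l p y => decide (Cnt (bs l) fun r =>
        outp (C l) (fl ev (Function.update z i y)) p.1 (wit (hist q l aT) p.2 r) = true)
    have hf : ∀ l p, Lv T W V (bs l).length (f l p) := fun l p =>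
      q1 T W V (bs l) (fun r => F' l (p.1, wit (hist q l aT) p.2 r)) (f l p) (hbW l)
        (fun r => (hfm l _).mono (hG l)) fun x => decide_eq_true_iff
    have hcc : ∀ l p, Lv T W V ((bs l).map fun p => (p.1, 2 ^ p.1 - 1)).length (cc l p) :=
      fun l p => q1 T W V _ (fun r => K' l (p.1, wit (hist q l aT) p.2 r)) (cc l p) (hmap l)
        (fun r => (hcm l _).mono (hG l)) fun x => decide_eq_true_iff
    have hlen : ∀ l, ((bs l).map fun p => (p.1, 2 ^ p.1 - 1)).length ≤ dd := fun l => by
      rw [List.length_map]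
      exact hdd l
    have hup : ∀ (y : V → Bool), F y → ∀ j, F fun v => fl ev (Function.update z i y)
        (ev.symm (j, v)) := by
      intro y hy j
      rw [fl_symm]
      by_cases hj : j = i
      · subst hj
        rw [Function.update_self]
        exact hy
      · rw [Function.update_of_ne hj]
        rcases hz j with h | ⟨p, h⟩
        · rw [h]
          exact hFt
        · rw [h]
          exact hpos p
    have hstep := hSTT n q W (V → Bool) P Q
      (fun l => (Fin (s l) → Bool) × (Fin (bl l) → Bool)) (fun _ => true) pos neg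
      f cc g
      (fun l τ => Phi (C l) (fl ev (Function.update z i (pos τ))) =
        Phi (C l) (fl ev (Function.update z i fun _ => true)))
      (fun y => a (fl ev (Function.update z i y)))
      (fun l => θ l (hist q l aT))
      (fun y => F₁ (fun i => i.elim0, aT) y)
      (fun y => K₁ (fun i => i.elim0, aT) y)
      (fun y => outp D (fl ev (Function.update z i y)) (fun i => i.elim0) aT)
      (fun τ => Phi D (fl ev (Function.update z i (pos τ))) =
        Phi D (fl ev (Function.update z i fun _ => true)))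
      hn hq
      (fun l => Fintype.card_pos) hQ0
      (fun l p y hy => (hLVC T W V _ _ (hf l p)).2.1 _ _ (fun _ _ => rfl) hy)
      (fun l τ hs p => decide_eq_true (q3 (bs l) _ fun r => hc1 l _ hs _))
      (fun l p => decide_eq_true (q3 (bs l) _ fun r => hc1 l _ rfl _))
      (fun l p y hy => by
        have h1 := q2 ((bs l).map fun p => (p.1, 2 ^ p.1 - 1))
          (fun r => K' l (p.1, wit (hist q l aT) p.2 r) y = true)
          (fun r => F' l (p.1, wit (hist q l aT) p.2 r) y = true ↔
            outp (C l) (fl ev (Function.update z i y)) p.1 (wit (hist q l aT) p.2 r) = true)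
          (fun r hr => by
            rw [hcf l y _ hr]) (of_decide_eq_true hy)
        exact decide_eq_decide.2 (q4 (bs l) _ _ h1))
      (fun τ hs => hc1₁ _ hs _)
      (fun y hy => hcf₁ y _ hy)
      (fun l p => hL _ _ (hdd l) (hf l p))
      (fun l p => hL _ _ (hlen l) (hcc l p))
      (hL _ 0 (Nat.zero_le _) (Lv.base ((hfm₁ _).mono hGD)))
      (hL _ 0 (Nat.zero_le _) (Lv.base ((hcm₁ _).mono hGD)))
      (fun l y hy => by
        have hy' : hist q l (a (fl ev (Function.update z i y))) = hist q l aT := hy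
        have h5 := hA l (fl ev (Function.update z i y))
        rw [hy'] at h5
        have h6 : cnt (g l) y = accQ (C l) (bl l) (bs l) (hist q l aT)
            (fl ev (Function.update z i y)) :=
          cnt_accQ (C l) (bl l) (bs l) (hist q l aT) (fun y => fl ev (Function.update z i y)) y
        rw [card_wit, h6]
        exact h5)
      (fun τ hτ => by
        have hτ' : a (fl ev (Function.update z i (pos τ))) = aT := hτ
        have h5 := (hD _).1 (hup (pos τ) (hpos τ))
        rw [hτ'] at h5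
        exact h5)
      (fun χ hχ => by
        have hχ' : a (fl ev (Function.update z i (neg χ))) = aT := hχ
        by_contra h5
        rw [Bool.not_eq_false, ← hχ'] at h5
        have h6 := (hD _).2 h5 i
        rw [fl_symm, Function.update_self] at h6
        exact hneg χ h6)
    refine hstep.trans (Nat.mul_le_mul_left _ (card_le_card ?_))
    intro τ hτ
    have hτ2 := (@Finset.mem_filter _ _ (_) _ _).1 hτ
    rw [mem_filter]
    refine ⟨mem_univ _, (hpot _ _ (fl_le ev z i _)).2 ?_⟩
    rcases hτ2.2 with h0 | ⟨l, h5 | ⟨h5, h6, h7⟩⟩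
    · exact Or.inl h0
    · exact Or.inr ⟨l, Or.inl h5⟩
    · refine Or.inr ⟨l, Or.inr ⟨h5, h6, fun h8 => ?_⟩⟩
      have h9 := h7 h8
      have e1 : ∀ y, cnt (g l) y = accQ (C l) (bl l) (bs l) (hist q l aT)
          (fl ev (Function.update z i y)) := fun y =>
        cnt_accQ (C l) (bl l) (bs l) (hist q l aT) (fun y => fl ev (Function.update z i y)) y
      rw [card_wit, e1, e1] at h9
      exact h9

end Pool.Agent.NCH
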