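import Pool.Agent.NCH.Stm

/-!
# NCH: counting quantifiers (module CQL, MP_153864_lc, helper54)
-/

set_option autoImplicit false

namespace Pool.Agent.NCH

open Finset Pool.Agent.NegLim Pool.Agent.NLM Pool.Agent.NEG72 Pool.Agent.NPP Pool.Agent.NPQ

namespace CQLM

open Classical in
theorem cnt_cons (p : ℕ × ℕ) (bs : List (ℕ × ℕ)) (R : List Bool → Prop) :
    Cnt (p :: bs) R ↔ p.2 < ((univ : Finset (Fin p.1 → Bool)).filter fun w =>
      Cnt bs fun l => R (List.ofFn w ++ l)).card := Iff.rfl

theorem card_strings (b : ℕ) : (univ : Finset (Fin b → Bool)).card = 2 ^ b := by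
  rw [Finset.card_univ, Fintype.card_fun, Fintype.card_bool, Fintype.card_fin]

/-- levels -/
theorem lv (T W : ℕ) (V : Type) (bs : List (ℕ × ℕ)) :
    ∀ (G : List Bool → (V → Bool) → Bool) (f : (V → Bool) → Bool), (∀ p ∈ bs, p.1 ≤ W) →
      (∀ l, MonSize (G l) T) → (∀ x, f x = true ↔ Cnt bs fun l => G l x = true) →
      Lv T W V bs.length f := by
  classical
  induction bs with
  | nil =>
    intro G f _ hG hf
    have h : f = G [] := by
      funext x
      have h1 : f x = true ↔ G [] x = true := hf x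
      exact Bool.eq_iff_iff.2 h1
    rw [h]
    exact Lv.base (hG [])
  | cons p bs ih =>
    intro G f hW hG hf
    obtain ⟨g, hg⟩ : ∃ g : (Fin p.1 → Bool) → (V → Bool) → Bool,
        ∀ w x, (g w x = true ↔ Cnt bs fun l => G (List.ofFn w ++ l) x = true) :=
      ⟨fun w x => decide (Cnt bs fun l => G (List.ofFn w ++ l) x = true), fun w x => by
        rw [decide_eq_true_eq]⟩
    have hc : ∀ x, (f x = true ↔ p.2 < cnt g x) := by
      intro x
      rw [hf x, cnt_cons]
      have h1 : cnt g x = ((univ : Finset (Fin p.1 → Bool)).filter fun w =>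
          Cnt bs fun l => G (List.ofFn w ++ l) x = true).card := by
        unfold cnt
        exact congrArg Finset.card (Finset.filter_congr fun w _ => hg w x)
      rw [h1]
    have hb : Fintype.card (Fin p.1 → Bool) = 2 ^ p.1 := by
      rw [Fintype.card_fun, Fintype.card_bool, Fintype.card_fin]
    have h0 : (0 : ℝ) < 2 ^ p.1 := by positivity
    have hWp : (2 : ℝ) ^ p.1 ≤ 2 ^ W :=
      pow_le_pow_right₀ (by norm_num) (hW p List.mem_cons_self)
    have h0W : (0 : ℝ) < 2 ^ W := by positivity
    rw [List.length_cons]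
    refine Lv.step g ((p.2 : ℝ) / 2 ^ p.1) (by rw [hb]; positivity) (fun w => ?_) fun x => ?_
    · exact ih (fun l => G (List.ofFn w ++ l)) (g w)
        (fun q hq => hW q (List.mem_cons_of_mem _ hq)) (fun l => hG _) (hg w)
    · rw [hb]
      push_cast
      constructor
      · intro h
        have h1 := (hc x).1 h
        have h2 : (p.2 : ℝ) + 1 ≤ (cnt g x : ℝ) := by exact_mod_cast h1
        have h3 : (1 : ℝ) / 2 ^ W * 2 ^ p.1 ≤ 1 := by
          rw [div_mul_eq_mul_div, one_mul, div_le_one h0W]
          exact hWp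
        rw [add_mul, div_mul_cancel₀ _ h0.ne']
        linarith
      · intro h
        have h1 : ¬ p.2 < cnt g x := by
          intro h2
          rw [(hc x).2 h2] at h
          exact Bool.noConfusion h
        rw [div_mul_cancel₀ _ h0.ne']
        exact_mod_cast not_lt.1 h1

/-- monotonicity -/
theorem mono (bs : List (ℕ × ℕ)) : ∀ R R' : List Bool → Prop, (∀ l, R l → R' l) →
    Cnt bs R → Cnt bs R' := by
  classical
  induction bs with
  | nil =>
    intro R R' h h1
    exact h [] h1
  | cons p bs ih =>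
    intro R R' h h1
    rw [cnt_cons] at h1 ⊢
    refine lt_of_lt_of_le h1 (Finset.card_le_card ?_)
    intro w hw
    rw [Finset.mem_filter] at hw ⊢
    exact ⟨hw.1, ih _ _ (fun l => h _) hw.2⟩

/-- all strings -/
theorem all (bs : List (ℕ × ℕ)) : ∀ R : List Bool → Prop, (∀ l, R l) →
    Cnt (bs.map fun p => (p.1, 2 ^ p.1 - 1)) R := by
  classical
  induction bs with
  | nil =>
    intro R h
    exact h []
  | cons p bs ih =>
    intro R h
    rw [List.map_cons, cnt_cons, Finset.filter_true_of_mem (fun w _ => ih _ (fun l => h _))]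
    show 2 ^ p.1 - 1 < (univ : Finset (Fin p.1 → Bool)).card
    rw [card_strings]
    have : 0 < 2 ^ p.1 := by positivity
    omega

/-- equivalence for all strings -/
theorem eqv (bs : List (ℕ × ℕ)) : ∀ R R' : List Bool → Prop,
    Cnt (bs.map fun p => (p.1, 2 ^ p.1 - 1)) (fun l => R l ↔ R' l) →
    (Cnt bs R ↔ Cnt bs R') := by
  classical
  induction bs with
  | nil =>
    intro R R' h
    exact h
  | cons p bs ih =>
    intro R R' h
    rw [List.map_cons, cnt_cons] at h
    have h1 : 2 ^ p.1 - 1 < ((univ : Finset (Fin p.1 → Bool)).filter fun w =>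
        Cnt (bs.map fun p => (p.1, 2 ^ p.1 - 1)) fun l =>
          R (List.ofFn w ++ l) ↔ R' (List.ofFn w ++ l)).card := h
    have h2 : (univ : Finset (Fin p.1 → Bool)).card ≤
        ((univ : Finset (Fin p.1 → Bool)).filter fun w =>
        Cnt (bs.map fun p => (p.1, 2 ^ p.1 - 1)) fun l =>
          R (List.ofFn w ++ l) ↔ R' (List.ofFn w ++ l)).card := by
      rw [card_strings]
      omega
    have h3 := Finset.eq_of_subset_of_card_le (Finset.filter_subset _ _) h2
    have h4 : ∀ w : Fin p.1 → Bool, Cnt (bs.map fun p => (p.1, 2 ^ p.1 - 1)) fun l =>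
          R (List.ofFn w ++ l) ↔ R' (List.ofFn w ++ l) := by
      intro w
      have h5 := Finset.mem_univ w
      rw [← h3, Finset.mem_filter] at h5
      exact h5.2
    rw [cnt_cons, cnt_cons]
    rw [Finset.filter_congr (fun w _ => ih _ _ (h4 w))]

end CQLM

theorem CQL_thm : Stmt_CQL :=
  ⟨fun T W V bs G f h1 h2 h3 => CQLM.lv T W V bs G f h1 h2 h3,
    fun bs R R' h => CQLM.mono bs R R' h, fun bs R h => CQLM.all bs R h,
    fun bs R R' h => CQLM.eqv bs R R' h⟩

end Pool.Agent.NCH
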