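import Pool.Agent.NCH.Stm
import Pool.Agent.NNDT.Core

/-!
# Project NCH, module LVC: closure properties of the levels
-/

set_option autoImplicit false

namespace Pool.Agent.NCH

open Finset Pool.Agent.NegLim Pool.Agent.NLM Pool.Agent.NEG72 Pool.Agent.NPP Pool.Agent.NPQ

namespace LVCM

theorem sub {T W : ℕ} {V : Type} {d : ℕ} {f : (V → Bool) → Bool} (h : Lv T W V d f) :
    ∀ (V' : Type) (σ : (V' → Bool) → V → Bool), IsProj σ → Lv T W V' d fun x => f (σ x) := by
  induction h with
  | base hf => exact fun V' σ hσ => Lv.base (hf.comp hσ)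
  | step g θ h0 _ hx ih =>
    exact fun V' σ hσ => Lv.step (fun w x => g w (σ x)) θ h0 (fun w => ih w V' σ hσ) fun x => hx (σ x)

theorem mono {T W : ℕ} {V : Type} {d : ℕ} {f : (V → Bool) → Bool} (h : Lv T W V d f) :
    ∀ x x' : V → Bool, (∀ e, x e = true → x' e = true) → f x = true → f x' = true := by
  induction h with
  | base hf => exact fun x x' h1 h2 => Pool.Agent.NNDT.MonSize.monotone hf x x' h1 h2
  | @step d Ω _ g θ f h0 _ hx ih =>
    intro x x' h1 h2
    by_contra h3
    rw [Bool.not_eq_true] at h3
    have h4 := (hx x).1 h2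
    have h5 := (hx x').2 h3
    have h6 : cnt g x ≤ cnt g x' := by
      unfold cnt
      apply card_le_card
      intro w hw
      rw [mem_filter] at hw ⊢
      exact ⟨mem_univ _, ih w x x' h1 hw.2⟩
    have h7 : (cnt g x : ℝ) ≤ cnt g x' := by exact_mod_cast h6
    have h8 : (0 : ℝ) < 1 / 2 ^ W * Fintype.card Ω := by
      have : (0 : ℝ) < Fintype.card Ω := by exact_mod_cast h0
      positivity
    nlinarith

theorem succ {T W : ℕ} {V : Type} {d : ℕ} {f : (V → Bool) → Bool} (h : Lv T W V d f) :
    Lv T W V (d + 1) f := by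
  refine Lv.step (Ω := Unit) (fun _ => f) 0 (by simp) (fun _ => h) fun x => ⟨fun h1 => ?_, fun h1 => ?_⟩
  · have h2 : cnt (fun _ : Unit => f) x = 1 := by
      unfold cnt
      simp [h1]
    rw [h2]
    have h3 : (1 : ℝ) / 2 ^ W ≤ 1 := by
      rw [div_le_one (by positivity)]
      exact one_le_pow₀ (by norm_num)
    simpa using h3
  · have h2 : cnt (fun _ : Unit => f) x = 0 := by
      unfold cnt
      simp [h1]
    rw [h2]
    simp

theorem dual {T W : ℕ} {V : Type} {d : ℕ} {f : (V → Bool) → Bool} (h : Lv T W V d f) :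
    Lv T W V d (Pool.Agent.NegLim.dual f) := by
  induction h with
  | base hf => exact Lv.base hf.dual
  | @step d Ω _ g θ f h0 _ hx ih =>
    refine Lv.step (fun w => Pool.Agent.NegLim.dual (g w)) (1 - θ - 1 / 2 ^ W) h0 ih fun x => ?_
    have h1 : cnt (fun w => Pool.Agent.NegLim.dual (g w)) x + cnt g (fun e => !(x e)) =
        Fintype.card Ω := by
      unfold cnt
      rw [← Finset.card_univ (α := Ω), ← Finset.card_filter_add_card_filter_not
        (s := (univ : Finset Ω)) (fun p => g p (fun e => !(x e)) = true), add_comm]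
      congr 2
      ext w
      simp [Pool.Agent.NegLim.dual]
    have h2 : (cnt (fun w => Pool.Agent.NegLim.dual (g w)) x : ℝ) + cnt g (fun e => !(x e)) =
        Fintype.card Ω := by exact_mod_cast h1
    constructor
    · intro h3
      have h4 : f (fun e => !(x e)) = false := by
        have : (!(f fun e => !(x e))) = true := h3
        simpa using this
      have h5 := (hx _).2 h4
      nlinarith
    · intro h3
      have h4 : f (fun e => !(x e)) = true := by
        have : (!(f fun e => !(x e))) = false := h3
        simpa using this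
      have h5 := (hx _).1 h4
      nlinarith

end LVCM

theorem LVC_thm : Stmt_LVC := by
  intro T W V d f hf
  refine ⟨LVCM.sub hf, LVCM.mono hf, fun d' hd => ?_, LVCM.dual hf⟩
  induction d', hd using Nat.le_induction with
  | base => exact hf
  | succ n _ ih => exact LVCM.succ ih

end Pool.Agent.NCH
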