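import Pool.Agent.NCH.Stm
import Pool.Agent.NPQ.MOH

/-!
# MOC: the number of the accepting witnesses grows if the NOT gates do not change
-/

set_option autoImplicit false

namespace Pool.Agent.NCH

open Finset Pool.Agent.NegLim Pool.Agent.NLM Pool.Agent.NEG72 Pool.Agent.NPP Pool.Agent.NPQ

open Classical in
/-- MOC -/
theorem MOC_thm : Stmt_MOC := by
  intro hCQL E s t n C hN x x' hx h b bs d
  unfold accQ
  refine Finset.card_le_card fun p hp => ?_
  rw [Finset.mem_filter] at hp ⊢
  refine ⟨hp.1, hCQL.2.1 bs _ _ (fun l hl => ?_) hp.2⟩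
  exact MOHM.outp_mono C hN hx h p.1 _ hl

end Pool.Agent.NCH
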