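import Pool.Agent.NCH.Stm

/-!
# OST: the disjunction, by duality, and equivalences
-/

set_option autoImplicit false

namespace Pool.Agent.NCH

open Finset Pool.Agent.NegLim Pool.Agent.NLM Pool.Agent.NEG72 Pool.Agent.NPP Pool.Agent.NPQ

namespace OSTM

/-- duality -/
theorem toO (hL : Stmt_LVC) {T W K d : ℕ} {V : Type} {F : (V → Bool) → Prop}
    (h : HardA T W K d F) : HardO T W K d fun x : V → Bool => ¬ F fun v => !(x v) := by
  obtain ⟨P, Q, iP, iQ, pos, neg, hP, hQ, hpos, hneg, hf⟩ := h
  have nn : ∀ y : V → Bool, (fun v => !(!(y v))) = y := fun y => by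
    funext v
    exact Bool.not_not _
  refine ⟨Q, P, iQ, iP, fun q v => !(neg q v), fun p v => !(pos p v), hQ, hP, ?_, ?_, ?_⟩
  · intro q
    show ¬ F fun v => !(!(neg q v))
    rw [nn]
    exact hneg q
  · intro p hp
    apply hp
    show F fun v => !(!(pos p v))
    rw [nn]
    exact hpos p
  · intro f hfL
    have h1 := hf (Pool.Agent.NegLim.dual f) (hL T W V d f hfL).2.2.2
    have e1 : (univ : Finset P).filter (fun p => Pool.Agent.NegLim.dual f (pos p) = true) =
        (univ : Finset P).filter fun p => f (fun v => !(pos p v)) = false := by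
      refine Finset.filter_congr fun p _ => ?_
      unfold Pool.Agent.NegLim.dual
      simp
    have e2 : (univ : Finset Q).filter (fun q => Pool.Agent.NegLim.dual f (neg q) = false) =
        (univ : Finset Q).filter fun q => f (fun v => !(neg q v)) = true := by
      refine Finset.filter_congr fun q _ => ?_
      unfold Pool.Agent.NegLim.dual
      simp
    rw [e1, e2] at h1
    exact h1

end OSTM

open OSTM in
theorem OST_thm : Stmt_OST := by
  intro hL hA
  refine ⟨?_, ?_⟩
  · intro T W K K₁ d m V F hW hm hF
    have h1 := toO hL (hA hL T W K K₁ d m V (fun x : V → Bool => ¬ F fun v => !(x v)) hW hm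
      (toO hL hF))
    have e : (fun z : Fin m × V → Bool => ¬ ∀ i, ¬ F fun v => !(!(z (i, v)))) =
        fun z : Fin m × V → Bool => ∃ i, F fun v => z (i, v) := by
      funext z
      simp only [Bool.not_not, not_forall, not_not]
    have h2 : HardO T W K (d + 1)
        (fun z : Fin m × V → Bool => ¬ ∀ i, ¬ F fun v => !(!(z (i, v)))) := h1
    rw [e] at h2
    exact h2
  · intro T W K d V V' e F hF
    obtain ⟨P, Q, iP, iQ, pos, neg, hP, hQ, hpos, hneg, hf⟩ := hF
    have ee : ∀ y : V → Bool, (fun v => y (e (e.symm v))) = y := fun y => by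
      funext v
      rw [Equiv.apply_symm_apply]
    refine ⟨P, Q, iP, iQ, fun p v' => pos p (e v'), fun q v' => neg q (e v'), hP, hQ, ?_, ?_, ?_⟩
    · intro p
      show F fun v => pos p (e (e.symm v))
      rw [ee]
      exact hpos p
    · intro q
      show ¬ F fun v => neg q (e (e.symm v))
      rw [ee]
      exact hneg q
    · intro f hfL
      exact hf (fun x => f fun v' => x (e v')) ((hL T W V' d f hfL).1 V (fun x v' => x (e v'))
        fun v' => Or.inr (Or.inl ⟨e v', rfl⟩))

end Pool.Agent.NCH
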