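import Pool.Agent.NCH.Stm

/-!
# NCH: the tree (module TRE)
-/

set_option autoImplicit false

namespace Pool.Agent.NCH

open Finset Pool.Agent.NegLim Pool.Agent.NLM Pool.Agent.NEG72 Pool.Agent.NPP Pool.Agent.NPQ
open Pool.Agent.NNDT (Lit)
open Pool.Agent.Lib_helper26.TQ (Alt)

namespace TREM

theorem alt_ex (b : ℕ) (qs : List Bool) : ∀ R : List Bool → Prop,
    (Alt (List.replicate b true ++ qs) R ↔
      ∃ w : Fin b → Bool, Alt qs fun l => R (List.ofFn w ++ l)) := by
  induction b with
  | zero =>
    intro R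
    constructor
    · intro h
      exact ⟨fun i => i.elim0, by simpa using h⟩
    · rintro ⟨w, h⟩
      simpa using h
  | succ b ih =>
    intro R
    show (∃ c, Alt (List.replicate b true ++ qs) fun w => R (c :: w)) ↔ _
    constructor
    · rintro ⟨c, h⟩
      obtain ⟨w, hw⟩ := (ih _).1 h
      refine ⟨Fin.cons c w, ?_⟩
      rw [List.ofFn_cons]
      exact hw
    · rintro ⟨w, hw⟩
      rw [List.ofFn_succ] at hw
      exact ⟨w 0, (ih _).2 ⟨fun i => w i.succ, hw⟩⟩

theorem alt_all (b : ℕ) (qs : List Bool) : ∀ R : List Bool → Prop,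
    (Alt (List.replicate b false ++ qs) R ↔
      ∀ w : Fin b → Bool, Alt qs fun l => R (List.ofFn w ++ l)) := by
  induction b with
  | zero =>
    intro R
    constructor
    · intro h w
      simpa using h
    · intro h
      simpa using h fun i => i.elim0
  | succ b ih =>
    intro R
    show (∀ c, Alt (List.replicate b false ++ qs) fun w => R (c :: w)) ↔ _
    constructor
    · intro h w
      rw [List.ofFn_succ]
      exact (ih _).1 (h (w 0)) fun i => w i.succ
    · intro h c
      refine (ih _).2 fun w => ?_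
      have := h (Fin.cons c w)
      rw [List.ofFn_cons] at this
      exact this

/-- The equivalence of the indices. -/
def eqv (b L : ℕ) (E : Type) (σ : Fin (2 ^ b) ≃ (Fin b → Bool)) :
    (Fin (b + (b + L)) → Bool) × E ≃ Fin (2 ^ b) × (Fin (2 ^ b) × ((Fin L → Bool) × E)) where
  toFun p := (σ.symm ((Fin.appendEquiv b (b + L)).symm p.1).1,
    (σ.symm ((Fin.appendEquiv b L).symm ((Fin.appendEquiv b (b + L)).symm p.1).2).1,
      (((Fin.appendEquiv b L).symm ((Fin.appendEquiv b (b + L)).symm p.1).2).2, p.2)))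
  invFun q := (Fin.append (σ q.1) (Fin.append (σ q.2.1) q.2.2.1), q.2.2.2)
  left_inv := by
    rintro ⟨u, e⟩
    refine Prod.ext ?_ rfl
    show Fin.append (σ (σ.symm ((Fin.appendEquiv b (b + L)).symm u).1))
      (Fin.append (σ (σ.symm ((Fin.appendEquiv b L).symm
        ((Fin.appendEquiv b (b + L)).symm u).2).1))
        ((Fin.appendEquiv b L).symm ((Fin.appendEquiv b (b + L)).symm u).2).2) = u
    rw [Equiv.apply_symm_apply, Equiv.apply_symm_apply]
    have h1 : Fin.append ((Fin.appendEquiv b L).symm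
        ((Fin.appendEquiv b (b + L)).symm u).2).1 ((Fin.appendEquiv b L).symm
        ((Fin.appendEquiv b (b + L)).symm u).2).2 = ((Fin.appendEquiv b (b + L)).symm u).2 :=
      (Fin.appendEquiv b L).apply_symm_apply _
    rw [h1]
    exact (Fin.appendEquiv b (b + L)).apply_symm_apply _
  right_inv := by
    rintro ⟨i, j, u, e⟩
    have h1 : (Fin.appendEquiv b (b + L)).symm (Fin.append (σ i) (Fin.append (σ j) u)) =
        (σ i, Fin.append (σ j) u) :=
      (Fin.appendEquiv b (b + L)).symm_apply_apply (σ i, Fin.append (σ j) u)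
    have h2 : (Fin.appendEquiv b L).symm (Fin.append (σ j) u) = (σ j, u) :=
      (Fin.appendEquiv b L).symm_apply_apply (σ j, u)
    simp only [h1, h2, Equiv.symm_apply_apply]

theorem app_getD (b L : ℕ) (w : Fin b → Bool) (l : List Bool) :
    Fin.append w (fun j : Fin L => l.getD j false) =
      fun j : Fin (b + L) => (List.ofFn w ++ l).getD j false := by
  funext j
  refine Fin.addCases (fun i => ?_) (fun i => ?_) j
  · rw [Fin.append_left, List.getD_append _ _ _ _ (by simp)]
    simp [List.getD_eq_getElem?_getD]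
  · rw [Fin.append_right, List.getD_append_right _ _ _ _ (by simp)]
    simp

theorem eqv_symm (b L : ℕ) (E : Type) (σ : Fin (2 ^ b) ≃ (Fin b → Bool)) (i j : Fin (2 ^ b))
    (l : List Bool) (e : E) : (eqv b L E σ).symm (i, (j, ((fun t : Fin L => l.getD t false), e))) =
      (fun t : Fin (b + (b + L)) => (List.ofFn (σ i) ++ (List.ofFn (σ j) ++ l)).getD t false,
        e) := by
  show (Fin.append (σ i) (Fin.append (σ j) fun t : Fin L => l.getD t false), e) = _
  rw [app_getD, app_getD]

/-- The equivalence for the empty address. -/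
def eqv0 (E : Type) : (Fin 0 → Bool) × E ≃ E where
  toFun p := p.2
  invFun e := (fun j => ([] : List Bool).getD j false, e)
  left_inv := by
    rintro ⟨u, e⟩
    exact Prod.ext (funext fun j => j.elim0) rfl
  right_inv := fun _ => rfl

theorem step_iff (v k b h : ℕ) (σ : Fin (2 ^ b) ≃ (Fin b → Bool))
    (x : (Fin (b + (b + h * (2 * b))) → Bool) × Edge v → Bool) :
    AltClq (altq b (h + 1)) (b + (b + h * (2 * b))) v k x ↔
      ∃ i, ∀ j, AltClq (altq b h) (h * (2 * b)) v k fun a =>
        x ((eqv b (h * (2 * b)) (Edge v) σ).symm (i, (j, a))) := by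
  have e1 : AltClq (altq b (h + 1)) (b + (b + h * (2 * b))) v k x ↔
      ∃ w₁ : Fin b → Bool, ∀ w₂ : Fin b → Bool, Alt (altq b h) fun l =>
        clq v k (fun e => x (fun j => (List.ofFn w₁ ++ (List.ofFn w₂ ++ l)).getD j false, e)) =
          true := by
    unfold AltClq
    rw [altq, alt_ex]
    apply exists_congr
    intro w₁
    rw [alt_all]
  have e2 : ∀ i j, (AltClq (altq b h) (h * (2 * b)) v k fun a =>
        x ((eqv b (h * (2 * b)) (Edge v) σ).symm (i, (j, a)))) ↔
      Alt (altq b h) fun l => clq v k (fun e => x (fun j' =>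
        (List.ofFn (σ i) ++ (List.ofFn (σ j) ++ l)).getD j' false, e)) = true := by
    intro i j
    unfold AltClq
    simp only [eqv_symm]
  rw [e1]
  constructor
  · rintro ⟨w, hw⟩
    refine ⟨σ.symm w, fun j => (e2 _ _).2 ?_⟩
    rw [Equiv.apply_symm_apply]
    exact hw (σ j)
  · rintro ⟨i, hi⟩
    refine ⟨σ i, fun w => ?_⟩
    have := (e2 _ _).1 (hi (σ.symm w))
    rw [Equiv.apply_symm_apply] at this
    exact this

end TREM

theorem TRE_thm : Stmt_TRE := by
  intro hL hA hO v k b h T W K hWK hK hbase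
  have hOST := hO hL hA
  suffices H : ∀ (h L : ℕ), L = h * (2 * b) → HardO T W K (2 * h)
      fun x : (Fin L → Bool) × Edge v → Bool => AltClq (altq b h) L v k x from H h _ rfl
  intro h
  induction h with
  | zero =>
    intro L hL0
    have hL0' : L = 0 := by rw [hL0, Nat.zero_mul]
    subst hL0'
    exact hOST.2 T W K 0 (Edge v) ((Fin 0 → Bool) × Edge v) (TREM.eqv0 (Edge v)) _ hbase
  | succ h ih =>
    intro L hLs
    obtain rfl : L = b + (b + h * (2 * b)) := by rw [hLs]; ring
    obtain ⟨σ⟩ : Nonempty (Fin (2 ^ b) ≃ (Fin b → Bool)) := by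
      refine ⟨(Fintype.equivFinOfCardEq ?_).symm⟩
      simp
    have h1 := hA hL T W K K (2 * h) (2 ^ b) _ _ hWK hK (ih _ rfl)
    have h2 := hOST.1 T W K K (2 * h + 1) (2 ^ b) _ _ hWK hK h1
    have h3 := hOST.2 T W K (2 * h + 1 + 1) _ _ (TREM.eqv b (h * (2 * b)) (Edge v) σ) _ h2
    have h4 : (fun x : (Fin (b + (b + h * (2 * b))) → Bool) × Edge v → Bool =>
        AltClq (altq b (h + 1)) (b + (b + h * (2 * b))) v k x) = fun x =>
        ∃ i, ∀ j, AltClq (altq b h) (h * (2 * b)) v k fun a =>
          x ((TREM.eqv b (h * (2 * b)) (Edge v) σ).symm (i, (j, a))) := by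
      funext x
      exact propext (TREM.step_iff v k b h σ x)
    rw [h4]
    exact h3

end Pool.Agent.NCH
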