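import Pool.Agent.NCH.MAIN
import Pool.Agent.NCH.LVC
import Pool.Agent.NCH.AST
import Pool.Agent.NCH.OST
import Pool.Agent.NCH.BSC
import Pool.Agent.NCH.TRE
import Pool.Agent.NCH.CQL
import Pool.Agent.NCH.MOC
import Pool.Agent.NCH.CMC
import Pool.Agent.NCH.NMC

/-!
# The lower bound for the counting hierarchy: final form
-/

set_option autoImplicit false

namespace Pool.Agent.NCH

open Finset Pool.Agent.NegLim Pool.Agent.NLM Pool.Agent.NEG72 Pool.Agent.NPP Pool.Agent.NPQ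

/-- **The lower bound.** -/
theorem lowerC (ε : ℝ) (hε : 0 < ε) (hε1 : ε ≤ 1) :
    ∃ v₀ : ℕ, ∀ v ≥ v₀, ∀ (k u r h n q c W : ℕ) (s t b : Fin n → ℕ) (bs : Fin n → List (ℕ × ℕ))
      (C : (l : Fin n) → NCirc ((Fin (u + h * (2 * r)) → Bool) × Edge v) (s l) (n + t l))
      (D : NCirc ((Fin (u + h * (2 * r)) → Bool) × Edge v) 0 n)
      (a : ((Fin (u + h * (2 * r)) → Bool) × Edge v → Bool) → Fin n → Bool),
      k = ⌊(v : ℝ) ^ (ε / 4)⌋₊ → v ≤ 2 ^ r → 1 ≤ n → 1 ≤ q → n ≤ c * q →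
      (n : ℝ) * 2 ^ W ≤ (2 : ℝ) ^ ((v : ℝ) ^ (1 - ε)) →
      (∀ l, (C l).NotsFree) → D.NotsFree →
      (∀ l, 2 * (1 + (W + 3) * (2 * (q + 1) ^ c - q - 2)) * 2 ^ (s l + (C l).nots) ≤ 2 ^ u) →
      2 * (1 + (W + 3) * (2 * (q + 1) ^ c - q - 2)) * 2 ^ D.nots ≤ 2 ^ u →
      (∀ l, (bs l).length ≤ 2 * h ∧ ∀ p ∈ bs l, p.1 ≤ W) →
      (∀ l, RightC q W (C l) (b l) (bs l) l a) →
      (∀ z, AltClq (List.replicate u false ++ altq r h) (u + h * (2 * r)) v k z ↔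
        outp D z (fun i => i.elim0) (a z) = true) →
      (2 : ℝ) ^ ((v : ℝ) ^ (ε / 10)) ≤ D.gates.length ∨
        ∃ l, (2 : ℝ) ^ ((v : ℝ) ^ (ε / 10)) ≤ (C l).gates.length :=
  lower_ofC LVC_thm AST_thm OST_thm BSC_thm TRE_thm CQL_thm MOC_thm CMC_thm NMC_thm DI1_thm LEV_thm
    CHN_thm GUE_thm WGV_thm WBV_thm STT_thm ε hε hε1

end Pool.Agent.NCH
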