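import Pool.Agent.NCH.Stm
import Pool.Agent.NPP.UPP
import Pool.Agent.NPQ.CMT

/-!
# The lower bound for the counting hierarchy
-/

set_option autoImplicit false

namespace Pool.Agent.NCH

open Finset Pool.Agent.NegLim Pool.Agent.NLM Pool.Agent.NEG72 Pool.Agent.NPP Pool.Agent.NPQ
open Pool.Agent.Lib_helper26.TQ (Alt)

/-- The answers `a x l` of the query number `l` are right: the outermost quantifier is a counting quantifier (for
more than `θ` of the witnesses) over `s + b ≤ W` bits, or it has the gap `1 / 2 ^ W`; then come the counting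
quantifiers `bs`. The first `n` of the last witness bits of the circuit are the answers of the earlier rounds. -/
def RightC (q W : ℕ) {E : Type} {s t n : ℕ} (C : NCirc E s (n + t)) (b : ℕ) (bs : List (ℕ × ℕ))
    (l : Fin n) (a : (E → Bool) → Fin n → Bool) : Prop :=
  (s + b ≤ W ∧ ∃ θ : ℕ, ∀ x, a x l = true ↔ θ < accQ C b bs (hist q l (a x)) x) ∨
    ∃ θ : (Fin n → Bool) → ℝ, GapQ q W C b bs l a θ

namespace MAINM

/-- A counting quantifier over few bits has a gap. -/
theorem gap_of_thr {q W : ℕ} {E : Type} {s t n : ℕ} {C : NCirc E s (n + t)} {b : ℕ}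
    {bs : List (ℕ × ℕ)} {l : Fin n} {a : (E → Bool) → Fin n → Bool} (hW : s + b ≤ W) (θ : ℕ)
    (h : ∀ x, a x l = true ↔ θ < accQ C b bs (hist q l (a x)) x) :
    ∃ θ : (Fin n → Bool) → ℝ, GapQ q W C b bs l a θ := by
  have h2 : (0 : ℝ) < 2 ^ (s + b) := by positivity
  refine ⟨fun _ => (θ : ℝ) / 2 ^ (s + b), fun x => ⟨fun hA => ?_, fun hA => ?_⟩⟩
  · have h3 : θ + 1 ≤ accQ C b bs (hist q l (a x)) x := (h x).1 hA
    have h4 : (θ : ℝ) + 1 ≤ accQ C b bs (hist q l (a x)) x := by exact_mod_cast h3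
    have h5 : (1 : ℝ) / 2 ^ W * 2 ^ (s + b) ≤ 1 := by
      rw [div_mul_eq_mul_div, one_mul, div_le_one (by positivity)]
      exact pow_le_pow_right₀ (by norm_num) hW
    rw [add_mul, div_mul_cancel₀ _ h2.ne']
    linarith
  · have h3 : accQ C b bs (hist q l (a x)) x ≤ θ := by
      by_contra h5
      have h6 := (h x).2 (by omega)
      rw [hA] at h6
      cases h6
    rw [div_mul_cancel₀ _ h2.ne']
    exact_mod_cast h3

/-- The threshold is at least minus the gap. -/
theorem gapQ_max {q W : ℕ} {E : Type} {s t n : ℕ} {C : NCirc E s (n + t)} {b : ℕ}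
    {bs : List (ℕ × ℕ)} {l : Fin n} {a : (E → Bool) → Fin n → Bool} {θ : (Fin n → Bool) → ℝ}
    (h : GapQ q W C b bs l a θ) : GapQ q W C b bs l a fun d => max (θ d) (-(1 / 2 ^ W)) := by
  intro x
  have h0 : (0 : ℝ) ≤ 2 ^ (s + b) := by positivity
  refine ⟨fun hA => ?_, fun hA => ?_⟩
  · rcases le_total (θ (hist q l (a x))) (-(1 / 2 ^ W)) with h1 | h1
    · simp only [max_eq_right h1, neg_add_cancel, zero_mul]
      exact Nat.cast_nonneg _
    · simp only [max_eq_left h1]
      exact (h x).1 hA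
  · exact ((h x).2 hA).trans (mul_le_mul_of_nonneg_right (le_max_left _ _) h0)

/-- The numbers below `2 ^ u` and the strings of `u` bits. -/
noncomputable def ev0 (u : ℕ) : (Fin u → Bool) ≃ Fin (2 ^ u) :=
  (Fintype.equivFin (Fin u → Bool)).trans (finCongr (by simp))

/-- The first `u` bits of the address. -/
noncomputable def evv (u L : ℕ) (V : Type) :
    (Fin (u + L) → Bool) × V ≃ Fin (2 ^ u) × ((Fin L → Bool) × V) :=
  ((((Fin.appendEquiv u L).symm.trans ((ev0 u).prodCongr (Equiv.refl _))).prodCongr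
    (Equiv.refl V)).trans (Equiv.prodAssoc _ _ _))

theorem evv_symm (u L : ℕ) (V : Type) (w : Fin u → Bool) (r : Fin L → Bool) (y : V) :
    (evv u L V).symm (ev0 u w, (r, y)) = (Fin.append w r, y) := by
  rw [Equiv.symm_apply_eq]
  show (ev0 u w, (r, y)) = (ev0 u ((Fin.appendEquiv u L).symm (Fin.append w r)).1,
    (((Fin.appendEquiv u L).symm (Fin.append w r)).2, y))
  have h : (Fin.appendEquiv u L).symm (Fin.append w r) = (w, r) := by
    rw [Equiv.symm_apply_eq]
    rfl
  rw [h]

/-- The first block of quantifiers. -/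
theorem alt_all (u : ℕ) (qs : List Bool) (R : List Bool → Prop) :
    Alt (List.replicate u false ++ qs) R ↔
      ∀ w : Fin u → Bool, Alt qs fun l => R (List.ofFn w ++ l) := by
  rw [UPPM.alt_false]
  constructor
  · intro h w
    exact h (List.ofFn w) (List.length_ofFn)
  · intro h l hl
    subst hl
    have h1 := h l.get
    rwa [List.ofFn_get] at h1

theorem getD_app {u L : ℕ} (w : Fin u → Bool) (l : List Bool) (j : Fin (u + L)) :
    (List.ofFn w ++ l).getD j false = Fin.append w (fun j : Fin L => l.getD j false) j := by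
  refine Fin.addCases (fun j => ?_) (fun j => ?_) j
  · rw [Fin.append_left, Fin.val_castAdd, List.getD_append _ _ _ _ (by simp),
      List.getD_eq_getElem _ _ (by simp), List.getElem_ofFn]
  · rw [Fin.append_right, Fin.val_natAdd, List.getD_append_right _ _ _ _ (by simp)]
    simp

/-- The function as a conjunction. -/
theorem altClq_iff (u L v k : ℕ) (qs : List Bool) (z : (Fin (u + L) → Bool) × Edge v → Bool) :
    AltClq (List.replicate u false ++ qs) (u + L) v k z ↔
      ∀ i : Fin (2 ^ u), AltClq qs L v k fun y => z ((evv u L (Edge v)).symm (i, y)) := by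
  unfold AltClq
  rw [alt_all]
  constructor
  · intro h i
    have h1 := h ((ev0 u).symm i)
    have h2 : (fun l : List Bool => clq v k (fun e => z ((evv u L (Edge v)).symm
        (i, (fun j : Fin L => l.getD j false, e)))) = true) = fun l => clq v k (fun e =>
          z (fun j : Fin (u + L) => (List.ofFn ((ev0 u).symm i) ++ l).getD j false, e)) = true := by
      funext l
      congr 2
      funext e
      have h3 := evv_symm u L (Edge v) ((ev0 u).symm i) (fun j : Fin L => l.getD j false) e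
      rw [Equiv.apply_symm_apply] at h3
      rw [h3]
      congr 2
      funext j
      exact (getD_app _ l j).symm
    rw [h2]
    exact h1
  · intro h w
    have h1 := h (ev0 u w)
    have h2 : (fun l : List Bool => clq v k (fun e => z ((evv u L (Edge v)).symm
        (ev0 u w, (fun j : Fin L => l.getD j false, e)))) = true) = fun l => clq v k (fun e =>
          z (fun j : Fin (u + L) => (List.ofFn w ++ l).getD j false, e)) = true := by
      funext l
      congr 2
      funext e
      rw [evv_symm]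
      congr 2
      funext j
      exact (getD_app _ l j).symm
    rw [h2] at h1
    exact h1

theorem alt_triv (qs : List Bool) (R : List Bool → Prop) (h : ∀ l, R l) : Alt qs R := by
  induction qs generalizing R with
  | nil => exact h []
  | cons b qs ih =>
    cases b with
    | true => exact ⟨true, ih _ fun l => h _⟩
    | false => exact fun b => ih _ fun l => h _

end MAINM

/-- The number of the quantified bits. -/
theorem len_altq (u b h : ℕ) :
    (List.replicate u false ++ altq b h).length = u + h * (2 * b) := by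
  have h1 : ∀ h, (altq b h).length = h * (2 * b) := by
    intro h
    induction h with
    | zero => simp [altq]
    | succ h ih =>
      rw [altq, List.length_append, List.length_append, ih, List.length_replicate,
        List.length_replicate]
      ring
  rw [List.length_append, List.length_replicate, h1]

open MAINM in
/-- **The lower bound**, from the modules. -/
theorem lower_ofC (hLVC : Stmt_LVC) (hAST : Stmt_AST) (hOST : Stmt_OST) (hBSC : Stmt_BSC)
    (hTRE : Stmt_TRE) (hCQL : Stmt_CQL) (hMOC : Stmt_MOC) (hCMC : Stmt_CMC) (hNMC : Stmt_NMC)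
    (hDI1 : Stmt_DI1) (hLEV : Stmt_LEV) (hCHN : Stmt_CHN) (hGUE : Stmt_GUE) (hWGV : Stmt_WGV)
    (hWBV : Stmt_WBV) (hSTT : Stmt_STT) (ε : ℝ) (hε : 0 < ε) (hε1 : ε ≤ 1) :
    ∃ v₀ : ℕ, ∀ v ≥ v₀, ∀ (k u r h n q c W : ℕ) (s t b : Fin n → ℕ) (bs : Fin n → List (ℕ × ℕ))
      (C : (l : Fin n) → NCirc ((Fin (u + h * (2 * r)) → Bool) × Edge v) (s l) (n + t l))
      (D : NCirc ((Fin (u + h * (2 * r)) → Bool) × Edge v) 0 n)
      (a : ((Fin (u + h * (2 * r)) → Bool) × Edge v → Bool) → Fin n → Bool),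
      k = ⌊(v : ℝ) ^ (ε / 4)⌋₊ → v ≤ 2 ^ r → 1 ≤ n → 1 ≤ q → n ≤ c * q →
      (n : ℝ) * 2 ^ W ≤ (2 : ℝ) ^ ((v : ℝ) ^ (1 - ε)) →
      (∀ l, (C l).NotsFree) → D.NotsFree →
      (∀ l, 2 * (1 + (W + 3) * (2 * (q + 1) ^ c - q - 2)) * 2 ^ (s l + (C l).nots) ≤ 2 ^ u) →
      2 * (1 + (W + 3) * (2 * (q + 1) ^ c - q - 2)) * 2 ^ D.nots ≤ 2 ^ u →
      (∀ l, (bs l).length ≤ 2 * h ∧ ∀ p ∈ bs l, p.1 ≤ W) →
      (∀ l, RightC q W (C l) (b l) (bs l) l a) →
      (∀ z, AltClq (List.replicate u false ++ altq r h) (u + h * (2 * r)) v k z ↔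
        outp D z (fun i => i.elim0) (a z) = true) →
      (2 : ℝ) ^ ((v : ℝ) ^ (ε / 10)) ≤ D.gates.length ∨
        ∃ l, (2 : ℝ) ^ ((v : ℝ) ^ (ε / 10)) ≤ (C l).gates.length := by
  classical
  obtain ⟨v₀, hv₀⟩ := hNMC ε hε hε1
  refine ⟨v₀, fun v hv k u r h n q c W s t b bs C D a hk hr hn hq hc hW hN hND hm hmD hbs hA
    hF => ?_⟩
  by_contra hcon
  push Not at hcon
  obtain ⟨hcD, hcC⟩ := hcon
  have hne : (univ : Finset (Fin n)).Nonempty := ⟨⟨0, hn⟩, mem_univ _⟩
  obtain ⟨j₀, -, hj₀⟩ := Finset.exists_max_image univ (fun j => (C j).gates.length) hne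
  set G : ℕ := max D.gates.length (C j₀).gates.length with hG
  have hGlt : (G : ℝ) < (2 : ℝ) ^ ((v : ℝ) ^ (ε / 10)) := by
    rw [hG, Nat.cast_max]
    exact max_lt hcD (hcC j₀)
  obtain ⟨h', p, b', K, e1, e2, e3, e4, e5, e6, e7, e8, e9, e10, e11⟩ :=
    hv₀ v hv k n W G hk hn hW hGlt
  have hgap : ∀ l, ∃ θ : (Fin n → Bool) → ℝ, (∀ d, -(1 / 2 ^ W) ≤ θ d) ∧
      GapQ q W (C l) (b l) (bs l) l a θ := by
    intro l
    have h1 : ∃ θ : (Fin n → Bool) → ℝ, GapQ q W (C l) (b l) (bs l) l a θ := by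
      rcases hA l with ⟨h1, θ, h2⟩ | h1
      · exact gap_of_thr h1 θ h2
      · exact h1
    obtain ⟨θ, hθ⟩ := h1
    exact ⟨_, fun d => le_max_right _ _, gapQ_max hθ⟩
  choose θ hθ1 hθ2 using hgap
  have hbase := hBSC hDI1 v k b' h' p (G + 1) W K e1 e2 e3 e4 e5 e6 e7 e8
  have htree := hTRE hLVC hAST hOST v k r h (G + 1) W K e10 (e11.trans hr) hbase
  have hkv : k ≤ v := by
    have h1 : 1 ≤ p * (2 * h') := by nlinarith
    have h2 : 1 ≤ b' := by omega
    nlinarith
  set M : ℕ := steps c q W with hM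
  have hM0 : 0 < M := by
    rw [hM]
    unfold steps
    omega
  have h2M : 0 < 2 * M := by omega
  have hR : ∀ x : ℕ, 2 * M * x ≤ 2 ^ u → x ≤ 2 ^ u / (2 * M) := fun x hx =>
    (Nat.le_div_iff_mul_le h2M).2 (by rw [mul_comm]; exact hx)
  have hfin := hCMC hLVC hCQL hMOC hLEV hCHN hGUE hWGV hWBV hSTT
    ((Fin (u + h * (2 * r)) → Bool) × Edge v) ((Fin (h * (2 * r)) → Bool) × Edge v) (2 ^ u)
    (G + 1) n q c W K (2 ^ u / (2 * M)) (2 * h) (evv u (h * (2 * r)) (Edge v))
    (fun x => AltClq (altq r h) (h * (2 * r)) v k x) s t b bs C D a θ hn hq hc htree e9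
    (alt_triv _ _ fun _ => CMTM.clq_top hkv) hN
    (fun j => Nat.succ_le_succ ((hj₀ j (mem_univ _)).trans (le_max_right _ _)))
    (fun l => hR _ (hm l)) hND (Nat.succ_le_succ (le_max_left _ _)) (hR _ hmD)
    (fun l => (hbs l).1) (fun l => (hbs l).2) hθ1 hθ2
    (fun z => by rw [← hF z]; exact (altClq_iff u (h * (2 * r)) v k (altq r h) z).symm)
  have h3 : 2 * M * (2 ^ u / (2 * M)) ≤ 2 ^ u := Nat.mul_div_le (2 ^ u) (2 * M)
  have h4 : 3 * (M * (2 ^ u / (2 * M))) * 2 = 3 * (2 * M * (2 ^ u / (2 * M))) := by ring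
  have h5 : 0 < 2 ^ u := by positivity
  rw [← hM] at hfin
  omega

end Pool.Agent.NCH
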