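import Pool.Agent.NCH.MAIN

/-!
# Many rounds are as good as NOT gates, with the answers of project NCH
-/

set_option autoImplicit false

namespace Pool.Agent.NCH

open Finset Pool.Agent.NegLim Pool.Agent.NLM Pool.Agent.NEG72 Pool.Agent.NPP Pool.Agent.NPQ

/-- A query without witness bits is right if its output is the answer. -/
theorem rightC_of_outp {E : Type} {n q W : ℕ} (C : NCirc E 0 (n + 0)) (l : Fin n)
    (a : (E → Bool) → Fin n → Bool)
    (h : ∀ x u w, outp C x u (Fin.append (hist q l (a x)) w) = a x l) :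
    RightC q W C 0 [] l a := by
  classical
  refine Or.inl ⟨Nat.zero_le W, 0, fun x => ?_⟩
  have h2 : ∀ p : (Fin 0 → Bool) × (Fin 0 → Bool), (Cnt [] fun l' =>
      outp C x p.1 (Fin.append (hist q l (a x)) fun j =>
        (List.ofFn p.2 ++ l').getD j false) = true) ↔ a x l = true := by
    intro p
    rw [Cnt, h x]
  unfold accQ
  rw [Finset.card_pos]
  constructor
  · intro h5
    exact ⟨(default, default), (@Finset.mem_filter _ _ (_) _ _).2
      ⟨Finset.mem_univ _, (h2 _).2 h5⟩⟩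
  · rintro ⟨p, hp⟩
    exact (h2 p).1 ((@Finset.mem_filter _ _ (_) _ _).1 hp).2

/-- **Many rounds are as good as NOT gates.** -/
theorem rounds_upperC (E : Type) [Fintype E] (c q : ℕ) (hq : 1 ≤ q)
    (hN : Fintype.card E + 1 ≤ (q + 1) ^ c) :
    ∃ (C : Fin (c * q) → NCirc E 0 (c * q + 0)) (a : (E → Bool) → Fin (c * q) → Bool),
      (∀ l, (C l).nots = 0 ∧ (C l).gates.length ≤ 12 * (Fintype.card E + 1) ^ 3 ∧
        ∀ W, RightC q W (C l) 0 [] l a) ∧
      ∀ (t : ℕ) (D₀ : NCirc E 0 t), ∃ D : NCirc E 0 (c * q + t), D.nots = 0 ∧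
        D.gates.length ≤ 2 * D₀.gates.length + 12 * (Fintype.card E + 1) ^ 3 ∧
        ∀ x u w, outp D x u (Fin.append (a x) w) = outp D₀ x u w := by
  classical
  have hS : ∀ x : E → Bool, ones x < (q + 1) ^ c := by
    intro x
    have h1 : ones x ≤ Fintype.card E := card_le_univ _
    omega
  have hcir := fun l : Fin (c * q) => CIR_thm E (c * q) 0 fun d =>
    rdv c q d + ((l : ℕ) % q + 1) * (q + 1) ^ (c - 1 - (l : ℕ) / q)
  choose C hC1 hC2 hC3 using hcir
  refine ⟨C, fun x => dig c q (ones x), fun l => ⟨hC1 l, hC2 l, fun W => ?_⟩, fun t D₀ => ?_⟩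
  · refine rightC_of_outp (C l) l _ fun x u w => ?_
    rw [Bool.eq_iff_iff, hC3 l x u, (SRC_thm c q (ones x) hq (hS x)).2 l]
  · obtain ⟨D, h1, h2, h3⟩ := SIM_thm E (c * q) t (rdv c q) D₀
    exact ⟨D, h1, h2, fun x u w => h3 x u _ w (SRC_thm c q (ones x) hq (hS x)).1⟩

end Pool.Agent.NCH
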