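import Pool.Agent.NPQ.Fin6

/-!
# The statements of the modules of the project NCH

MP_153864_lc, Q2: PSPACE is not in P^CH for circuits with few negations. CH is the counting hierarchy: modes with
a constant number of counting quantifiers (for more than `θ` of the strings of `b` bits; this contains THERE IS,
FOR ALL and PP). The function: `2 ^ L` graphs, one for every string of `L` bits, and the bits are quantified by
a fixed string of quantifiers, FOR ALL `u` bits and then `h` times THERE ARE `b` bits, FOR ALL `b` bits; the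
graph has a clique of size `k`. Module `NCH_X`: `theorem Pool.Agent.NCH.X_thm : Stmt_X` in
`Pool/Agent/NCH/X.lean`; a statement of the form `Stmt_A → …` may use `Stmt_A` as a hypothesis.
-/

set_option autoImplicit false

namespace Pool.Agent.NCH

open Finset Pool.Agent.NegLim Pool.Agent.NLM Pool.Agent.NEG72 Pool.Agent.NPP Pool.Agent.NPQ
open Pool.Agent.NNDT (Lit)
open Pool.Agent.Lib_helper26.TQ (Alt)

/-! ### counting quantifiers -/

open Classical in
/-- Counting quantifiers about strings of bits: for every pair `(b, θ)` of the list, one after the other: for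
more than `θ` of the strings of `b` bits. The predicate gets the concatenation of the strings. -/
noncomputable def Cnt : List (ℕ × ℕ) → (List Bool → Prop) → Prop
  | [], R => R []
  | p :: bs, R => p.2 < ((univ : Finset (Fin p.1 → Bool)).filter fun w =>
      Cnt bs fun l => R (List.ofFn w ++ l)).card

open Classical in
/-- The number of the witnesses `(u, w)`, `s + b` bits, for which the inner counting quantifiers hold, if the
first `n` of the last witness bits are `d`; the other last witness bits are the string `w` and the strings of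
the inner quantifiers. -/
noncomputable def accQ {E : Type} {s t n : ℕ} (C : NCirc E s (n + t)) (b : ℕ) (bs : List (ℕ × ℕ))
    (d : Fin n → Bool) (x : E → Bool) : ℕ :=
  ((univ : Finset ((Fin s → Bool) × (Fin b → Bool))).filter fun p => Cnt bs fun l =>
    outp C x p.1 (Fin.append d fun j => (List.ofFn p.2 ++ l).getD j false) = true).card

/-- The answers `a x l` of the query number `l` are right, with the gap `1 / 2 ^ W` for the outermost
quantifier. -/
def GapQ (q W : ℕ) {E : Type} {s t n : ℕ} (C : NCirc E s (n + t)) (b : ℕ) (bs : List (ℕ × ℕ))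
    (l : Fin n) (a : (E → Bool) → Fin n → Bool) (θ : (Fin n → Bool) → ℝ) : Prop :=
  ∀ x, (a x l = true →
      (θ (hist q l (a x)) + 1 / 2 ^ W) * 2 ^ (s + b) ≤ accQ C b bs (hist q l (a x)) x) ∧
    (a x l = false →
      (accQ C b bs (hist q l (a x)) x : ℝ) ≤ θ (hist q l (a x)) * 2 ^ (s + b))

/-! ### levels of functions, hard functions -/

/-- `d` nested counting quantifiers (with the gap `1 / 2 ^ W`, over any finite sets) over functions with monotone
programs of at most `T` gates. -/
inductive Lv (T W : ℕ) (V : Type) : ℕ → ((V → Bool) → Bool) → Prop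
  | base {f : (V → Bool) → Bool} : MonSize f T → Lv T W V 0 f
  | step {d : ℕ} {Ω : Type} [Fintype Ω] (g : Ω → (V → Bool) → Bool) (θ : ℝ)
      {f : (V → Bool) → Bool} : 0 < Fintype.card Ω → (∀ w, Lv T W V d (g w)) →
      (∀ x, (f x = true → (θ + 1 / 2 ^ W) * Fintype.card Ω ≤ cnt g x) ∧
        (f x = false → (cnt g x : ℝ) ≤ θ * Fintype.card Ω)) → Lv T W V (d + 1) f

/-- The function `F` is hard for the level `d`: there are positive and negative tests, and a function of the
level `d` which accepts more than `1 / 12` of the positive tests rejects less than `2 ^ (-K)` of the negative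
tests. -/
def HardO (T W K d : ℕ) {V : Type} (F : (V → Bool) → Prop) : Prop :=
  ∃ (P Q : Type) (_ : Fintype P) (_ : Fintype Q) (pos : P → V → Bool) (neg : Q → V → Bool),
    0 < Fintype.card P ∧ 0 < Fintype.card Q ∧ (∀ p, F (pos p)) ∧ (∀ q, ¬ F (neg q)) ∧
    ∀ f, Lv T W V d f →
      2 ^ K * ((univ : Finset Q).filter fun q => f (neg q) = false).card < Fintype.card Q ∨
      12 * ((univ : Finset P).filter fun p => f (pos p) = true).card ≤ Fintype.card P

/-- The same with exchanged roles: a function of the level `d` which rejects more than `1 / 12` of the negative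
tests accepts less than `2 ^ (-K)` of the positive tests. -/
def HardA (T W K d : ℕ) {V : Type} (F : (V → Bool) → Prop) : Prop :=
  ∃ (P Q : Type) (_ : Fintype P) (_ : Fintype Q) (pos : P → V → Bool) (neg : Q → V → Bool),
    0 < Fintype.card P ∧ 0 < Fintype.card Q ∧ (∀ p, F (pos p)) ∧ (∀ q, ¬ F (neg q)) ∧
    ∀ f, Lv T W V d f →
      2 ^ K * ((univ : Finset P).filter fun p => f (pos p) = true).card < Fintype.card P ∨
      12 * ((univ : Finset Q).filter fun q => f (neg q) = false).card ≤ Fintype.card Q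

/-! ### the function -/

/-- The string of quantifiers: `h` times THERE ARE `b` bits (`true`), FOR ALL `b` bits (`false`). -/
def altq (b : ℕ) : ℕ → List Bool
  | 0 => []
  | h + 1 => List.replicate b true ++ (List.replicate b false ++ altq b h)

/-- The function: `2 ^ L` graphs on `v` vertices, one for every string of `L` bits; the bits are quantified by
`qs`, the graph has a clique of size `k`. -/
def AltClq (qs : List Bool) (L v k : ℕ) (z : (Fin L → Bool) × Edge v → Bool) : Prop :=
  Alt qs fun l => clq v k (fun e => z (fun j => l.getD j false, e)) = true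

/-! ### the modules -/

/-- LVC (120 lines). Closure. PROOF. Inductions on `Lv`. (1) `MonSize.comp`; the same `Ω`, `θ`, functions
`g w ∘ σ`. (2) `MonSize.monotone` (`NNDT/Core.lean`); if `f x = true`, `x ≤ x'` then `cnt g x' ≥ cnt g x ≥
(θ + 1 / 2 ^ W) * card Ω > θ * card Ω`, so `f x' ≠ false`. (3) One quantifier over `Unit` with `θ = 0`.
(4) `MonSize.dual` (`NegLim/Prog.lean`); for the step: `cnt (fun w => dual (g w)) x = card Ω - cnt g (¬ x)`, so
`θ' = 1 - θ - 1 / 2 ^ W`. -/
def Stmt_LVC : Prop :=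
  ∀ (T W : ℕ) (V : Type) (d : ℕ) (f : (V → Bool) → Bool), Lv T W V d f →
    (∀ (V' : Type) (σ : (V' → Bool) → V → Bool), IsProj σ → Lv T W V' d fun x => f (σ x)) ∧
    (∀ x x' : V → Bool, (∀ e, x e = true → x' e = true) → f x = true → f x' = true) ∧
    (∀ d', d ≤ d' → Lv T W V d' f) ∧ Lv T W V d (Pool.Agent.NegLim.dual f)

/-- AST (300 lines). The conjunction. PROOF. Let `P`, `Q`, `pos`, `neg` be the tests for `F`. New positive tests
`τ : Fin m → P`, `pos' τ (i, e) = pos (τ i) e`; new negative tests `(i, q)`: `neg q` in the block `i`, `true` in the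
other blocks. Let `f` be of the level `d + 1` (`cases`: `Ω`, `g`, `θ`; let `w = card Ω`), suppose that both
alternatives are false. Replace `θ` by `max θ (- 1 / 2 ^ W)` (`0 ≤ cnt`). Let `N z = cnt g z`,
`e z = N z - θ * w` if `f z = true` and `0` otherwise: `0 ≤ e ≤ 2 * w`, `e z ≥ w / 2 ^ W` if `f z = true`, and
`e` is monotone (LVC (2)). For `i ≤ m` let `zt i τ` be `pos (τ j)` in the blocks `j < i`, `true` in the others,
`A i = ∑ τ, e (zt i τ)`: `A 0 ≤ 2 * w * card P ^ m`, `A m ≥ w * card P ^ m / 2 ^ (K + W)` (second part of the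
negation), `A` does not grow. Let `B` be the set of the `i < m` with `96 * A (i + 1) < 95 * A i`: by induction
`A i ≤ (95 / 96) ^ (number of the elements of B below i) * A 0`; `(96 / 95) ^ 96 ≥ 2` (Bernoulli), so
`card B ≤ 96 * (K + W + 1) ≤ m / 24`. Let `r i` be the number of the `q` with `f (neg' (i, q)) = false`:
`12 * ∑ r i > m * card Q`. So there is `i ∉ B` with `24 * r i > card Q` (otherwise the sum is at most
`card B * card Q + m * card Q / 24`). Fix it. By `Pool.Agent.NBC.RES_thm` (averaging again over one coordinate)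
`card P * A (i + 1) = ∑ τ, ∑ p, e (u τ p)`, `u τ p` = `zt i τ` with `pos p` in the block `i`. So
`∑ τ, (96 * ∑ p, e (u τ p) - 95 * card P * e (zt i τ)) ≥ 0`, and as `A i > 0` (terms with `e (zt i τ) = 0` are `0`)
there is `τ` with `e₀ = e (zt i τ) > 0` and `96 * ∑ p, e (u τ p) ≥ 95 * card P * e₀`. For `w ∈ Ω` let
`f_w y = g w (zt i τ with y in the block i)`: level `d` (LVC (1)), so HardO applies. Let `Ω₀` be the set of the
`w` with `g w (zt i τ) = true` (`card Ω₀ = N = θ * w + e₀`), `Ω₂ ⊆ Ω₀` the set of those with the second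
alternative. Let `S` be the set of the `p` with `2 * e (u τ p) ≥ e₀`; `e₀ - e (u τ p) ≥ 0` has the sum
`≤ card P * e₀ / 96`, so `card Sᶜ ≤ card P / 48`. For `p ∈ S` exactly `e₀ - e (u τ p)` of the `w ∈ Ω₀` have
`f_w (pos p) = false`; every `w ∈ Ω₂` has at least `card P / 2` such `p ∈ S`. So `card Ω₂ ≤ e₀ / 48`. For every `q`
with `f (neg' (i, q)) = false` also `f (zt i τ with neg q) = false` (monotone), so at least `e₀` of the `w ∈ Ω₀`
have `f_w (neg q) = false`. So `card Q * e₀ / 24 < ∑_{w ∈ Ω₀} #{q | f_w (neg q) = false} ≤ card Ω₂ * card Q +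
card Ω * card Q / 2 ^ K₁ ≤ card Q * e₀ * (1 / 48 + 1 / 64)`, as `card Ω ≤ 2 ^ W * e₀` and `W + 6 ≤ K₁`. -/
def Stmt_AST : Prop := Stmt_LVC →
  ∀ (T W K K₁ d m : ℕ) (V : Type) (F : (V → Bool) → Prop), W + 6 ≤ K₁ →
    2304 * (K + W + 1) ≤ m → HardO T W K₁ d F →
    HardA T W K (d + 1) fun z : Fin m × V → Bool => ∀ i, F fun e => z (i, e)

/-- OST (120 lines). The disjunction, by duality, and equivalences. PROOF. (1) For HardA of `F` take for the
function `x ↦ ¬ F (¬ x)` the positive tests `q ↦ ¬ neg q` and the negative tests `p ↦ ¬ pos p`, and for a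
function `f` its dual (LVC (4)); the same from HardO to HardA. So from HardA for `F` we get HardO for
`x ↦ ¬ F (¬ x)`, by AST HardA for its conjunction, and by (1) HardO for the dual of the conjunction, which is the
disjunction. (2) Tests `p ↦ pos p ∘ e`; for `f` of `V'` the function `x ↦ f (x ∘ e)` (LVC (1)). -/
def Stmt_OST : Prop := Stmt_LVC → Stmt_AST →
  (∀ (T W K K₁ d m : ℕ) (V : Type) (F : (V → Bool) → Prop), W + 6 ≤ K₁ →
    2304 * (K + W + 1) ≤ m → HardA T W K₁ d F →
    HardO T W K (d + 1) fun z : Fin m × V → Bool => ∃ i, F fun e => z (i, e)) ∧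
  ∀ (T W K d : ℕ) (V V' : Type) (e : V' ≃ V) (F : (V → Bool) → Prop), HardO T W K d F →
    HardO T W K d fun x : V' → Bool => F fun v => x (e.symm v)

/-- BSC (60 lines). One graph. PROOF. Tests `posG hv`, `negIn` (`Fin k → Fin b`, `Fin v → Fin (k - 1)`,
`k ≥ 3`), as `hDI` in `NPQ/CMV.lean`: DI1 with `D = 12`; `CMPM.clq_posG`, `not_hasClique_negIn` as there. -/
def Stmt_BSC : Prop := Stmt_DI1 →
  ∀ (v k b h p T W K : ℕ), k * b ≤ v → 1 ≤ h → 2 * h * (2 * h - 1) ≤ k - 1 → 2 ≤ p →
    4 * (p * (2 * h)) ≤ b → 24 * T ≤ 2 ^ (2 * h) → 48 * (2 * h * p) ^ 2 ≤ b ^ 2 →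
    2 ^ K * (T * (4 * (p * (2 * h)) ^ (4 * h))) < 2 ^ p →
    HardO T W K 0 fun x : Edge v → Bool => clq v k x = true

/-- TRE (150 lines). The tree. PROOF. Induction on `h`. `h = 0`: the address is empty, OST (2) with the equivalence
of `(Fin 0 → Bool) × Edge v` and `Edge v` (`Equiv.punitProd`/`Unique`), then both sides are the same. Step: with
`V = (Fin (h * (2 * b)) → Bool) × Edge v` and `m = 2 ^ b`: AST for the function of `h`, then OST (1), then OST (2)
with an equivalence of `(Fin ((h + 1) * (2 * b)) → Bool) × Edge v` and `Fin m × (Fin m × V)`, which splits the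
address into the first `b` bits (`Fin m` by an equivalence with `Fin b → Bool`), the next `b` bits and the rest.
Unfold `Alt` for `List.replicate b true ++ _`: there is a string of `b` bits (induction), and
`(l₁ ++ (l₂ ++ l₃)).getD j false`. -/
def Stmt_TRE : Prop := Stmt_LVC → Stmt_AST → Stmt_OST →
  ∀ (v k b h T W K : ℕ), W + 6 ≤ K → 2304 * (K + W + 1) ≤ 2 ^ b →
    (HardO T W K 0 fun x : Edge v → Bool => clq v k x = true) →
    HardO T W K (2 * h) fun x : (Fin (h * (2 * b)) → Bool) × Edge v → Bool =>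
      AltClq (altq b h) (h * (2 * b)) v k x

/-- CQL (100 lines). Counting quantifiers. PROOF. (1) Induction on `bs`: for `(b, θ) :: bs` one quantifier over
`Fin b → Bool` with the threshold `θ / 2 ^ b` (`card = 2 ^ b ≤ 2 ^ W`, so `θ + 1 ≤ cnt` gives the gap). (2), (3)
Inductions on `bs` (with general predicates). (4) `θ = 2 ^ b - 1` for all quantifiers. -/
def Stmt_CQL : Prop :=
  (∀ (T W : ℕ) (V : Type) (bs : List (ℕ × ℕ)) (G : List Bool → (V → Bool) → Bool)
    (f : (V → Bool) → Bool), (∀ p ∈ bs, p.1 ≤ W) → (∀ l, MonSize (G l) T) →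
    (∀ x, f x = true ↔ Cnt bs fun l => G l x = true) → Lv T W V bs.length f) ∧
  (∀ (bs : List (ℕ × ℕ)) (R R' : List Bool → Prop), (∀ l, R l → R' l) → Cnt bs R → Cnt bs R') ∧
  (∀ (bs : List (ℕ × ℕ)) (R : List Bool → Prop), (∀ l, R l) →
    Cnt (bs.map fun p => (p.1, 2 ^ p.1 - 1)) R) ∧
  ∀ (bs : List (ℕ × ℕ)) (R R' : List Bool → Prop),
    Cnt (bs.map fun p => (p.1, 2 ^ p.1 - 1)) (fun l => R l ↔ R' l) → (Cnt bs R ↔ Cnt bs R')

/-- MOC (50 lines). If the NOT gates do not change then the number of the accepting witnesses grows. PROOF. As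
`NPQ/MOH.lean` (for all last witness bits `outp C x u w = true → outp C x' u w = true`), then CQL (2). -/
def Stmt_MOC : Prop := Stmt_CQL →
  ∀ (E : Type) (s t n : ℕ) (C : NCirc E s (n + t)), C.NotsFree → ∀ x x' : E → Bool,
    (∀ e, x e = true → x' e = true) → Phi C x = Phi C x' →
    ∀ (b : ℕ) (bs : List (ℕ × ℕ)) (d : Fin n → Bool), accQ C b bs d x ≤ accQ C b bs d x'

/-- CMC (350 lines). The assembly. PROOF: copy `NPQ/CMV.lean` and `NPQ/CMT.lean` (with `accQ` for `accH`,
`2 ^ (s + b)` for `2 ^ (s + t)`, MOC for MOH). The inputs are `fl z = fun y => z (ev y).1 (ev y).2` for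
`z : Fin m → V → Bool`, the tests are those of HardO (`P`, `Q`, `pos`, `neg`); `Gd z`: every `z i` is `true`
everywhere or `pos p`; `F` holds for both. CHN with `Y = V → Bool`, `top = fun _ => true`. In the step GUE for
`C l` gives `F l`, `K l` (functions of `(u, w)`, `w` all last witness bits). For the query `l` and
`p = (u, w₁) : (Fin (s l) → Bool) × (Fin (bl l) → Bool)` STT gets: `f l p y` = `decide` of
`Cnt (bs l) fun r => F l (u, Fin.append (d l) fun j => (List.ofFn w₁ ++ r).getD j false) y = true`, in the level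
`(bs l).length ≤ dd` by CQL (1) and LVC (3); `c l p y` the same with `K` and all thresholds `2 ^ b - 1` (for all
strings), CQL (1) again (the list `(bs l).map fun p => (p.1, 2 ^ p.1 - 1)`); `g l p y` = `decide` of
`Cnt (bs l) fun r => outp (C l) (σ y) u (Fin.append …) = true`, so `cnt (g l) y = accQ …`. `c = true → f = g` by
CQL (4); `c = true` for equal `Phi` by CQL (3). `f l p y = true → f l p top = true` by LVC (2). The alternatives of
STT are those of HardO, with `32 * n * 2 ^ W ≤ 2 ^ K`; `MonSize` functions are of the level `0`, LVC (3). -/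
def Stmt_CMC : Prop := Stmt_LVC → Stmt_CQL → Stmt_MOC → Stmt_LEV → Stmt_CHN → Stmt_GUE →
  Stmt_WGV → Stmt_WBV → Stmt_STT →
  ∀ (E V : Type) (m T n q c W K R dd : ℕ) (ev : E ≃ Fin m × V) (F : (V → Bool) → Prop)
    (s t bl : Fin n → ℕ) (bs : Fin n → List (ℕ × ℕ))
    (C : (l : Fin n) → NCirc E (s l) (n + t l)) (D : NCirc E 0 n)
    (a : (E → Bool) → Fin n → Bool) (θ : Fin n → (Fin n → Bool) → ℝ),
    0 < n → 0 < q → n ≤ c * q → HardO T W K dd F → 32 * n * 2 ^ W ≤ 2 ^ K →
    (F fun _ => true) →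
    (∀ l, (C l).NotsFree) → (∀ l, (C l).gates.length + 1 ≤ T) →
    (∀ l, 2 ^ (s l + (C l).nots) ≤ R) → D.NotsFree → D.gates.length + 1 ≤ T →
    2 ^ D.nots ≤ R → (∀ l, (bs l).length ≤ dd) → (∀ l, ∀ p ∈ bs l, p.1 ≤ W) →
    (∀ l d, -(1 / 2 ^ W) ≤ θ l d) → (∀ l, GapQ q W (C l) (bl l) (bs l) l a (θ l)) →
    (∀ z : E → Bool, (∀ i, F fun y => z (ev.symm (i, y))) ↔
      outp D z (fun i => i.elim0) (a z) = true) →
    2 * m ≤ 3 * (steps c q W * R)

/-- NMC (150 lines). The parameters. PROOF. Compare `NPQ/NMS.lean` (copy), `P = v ^ (1 - ε)`: `K = ⌊P⌋₊ + 6`,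
so `32 * n * 2 ^ W ≤ 32 * 2 ^ P ≤ 2 ^ K ≤ 2 ^ (P + 6)` and `W ≤ P`; `2304 * (K + W + 1) ≤ 2304 * (2 * P + 7) ≤ v` for
large `v`; the last inequality as there with `2 ^ (P + 6)` instead of `32 * q * 2 ^ W ≤ 2 ^ (P + 5)`. -/
def Stmt_NMC : Prop :=
  ∀ ε : ℝ, 0 < ε → ε ≤ 1 → ∃ v₀ : ℕ, ∀ v ≥ v₀, ∀ k n W G : ℕ, k = ⌊(v : ℝ) ^ (ε / 4)⌋₊ → 1 ≤ n →
    (n : ℝ) * 2 ^ W ≤ (2 : ℝ) ^ ((v : ℝ) ^ (1 - ε)) →
    (G : ℝ) < (2 : ℝ) ^ ((v : ℝ) ^ (ε / 10)) →
    ∃ h p b K : ℕ, k * b ≤ v ∧ 1 ≤ h ∧ 2 * h * (2 * h - 1) ≤ k - 1 ∧ 2 ≤ p ∧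
      4 * (p * (2 * h)) ≤ b ∧ 24 * (G + 1) ≤ 2 ^ (2 * h) ∧ 48 * (2 * h * p) ^ 2 ≤ b ^ 2 ∧
      2 ^ K * ((G + 1) * (4 * (p * (2 * h)) ^ (4 * h))) < 2 ^ p ∧
      32 * n * 2 ^ W ≤ 2 ^ K ∧ W + 6 ≤ K ∧ 2304 * (K + W + 1) ≤ v

/-- UPC (250 lines). The upper bound. PROOF. With the formulas `Cm` of `NPP/UPP.lean` and the functions of
`NPQ/Tight.lean`: for one address `α` the check of the clique which is given by the last `k ⌈log2 v⌉` witness bits
costs at most about `40 v ^ 2 k ^ 2` (`cm_ae` for `m = 1`), the test whether the first `L` witness bits are `α` costs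
`L` (conjunction of literals); the circuit is the disjunction over all `α` of the conjunctions. For the mode:
`Alt (qs ++ List.replicate r true) R ↔ Alt qs fun l => ∃ l', l'.length = r ∧ R (l ++ l')` (induction), and as in
`Tight.and_np0` a correct code of a clique exists iff the graph has a clique. -/
def Stmt_UPC : Prop :=
  ∀ (qs : List Bool) (L v k : ℕ), qs.length = L → 1 ≤ k → k ≤ v → 2 ≤ v →
    ∃ C : NCirc ((Fin L → Bool) × Edge v) 0 (L + k * Nat.clog 2 v), Lit C ∧ C.nots = 0 ∧
      C.gates.length ≤ 42 * (2 ^ L * v ^ 2 * k ^ 2 * (L + 1)) ∧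
      ∀ z, Pspace C (qs ++ List.replicate (k * Nat.clog 2 v) true) (fun i => i.elim0) z ↔
        AltClq qs L v k z

end Pool.Agent.NCH
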