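import Pool.Agent.NCH.Stm
import Pool.Agent.NPP.UPP

/-!
# Project NCH, module UPC (helper62): the upper bound in the PSPACE mode

The clique check is the formula `ae` of `NPP/UPP.lean`, one copy for every address.
-/

set_option autoImplicit false

namespace Pool.Agent.NCH

namespace UPCM

open Finset Pool.Agent.NegLim Pool.Agent.NLM Pool.Agent.NPP Pool.Agent.NNDT Pool.Agent.NPP.UPPM
open Pool.Agent.Lib_helper26.TQ (Alt)

/-! ### strings of quantifiers -/

lemma alt_iff {qs : List Bool} : ∀ {R R' : List Bool → Prop},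
    (∀ l, l.length = qs.length → (R l ↔ R' l)) → (Alt qs R ↔ Alt qs R') := by
  induction qs with
  | nil =>
    intro R R' h
    exact h [] rfl
  | cons q qs ih =>
    intro R R' h
    have h1 : ∀ b, Alt qs (fun w => R (b :: w)) ↔ Alt qs (fun w => R' (b :: w)) := fun b =>
      ih fun l hl => h (b :: l) (by simp [hl])
    cases q with
    | true =>
      constructor
      · rintro ⟨b, hb⟩
        exact ⟨b, (h1 b).1 hb⟩
      · rintro ⟨b, hb⟩
        exact ⟨b, (h1 b).2 hb⟩
    | false =>
      constructor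
      · intro hb b
        exact (h1 b).1 (hb b)
      · intro hb b
        exact (h1 b).2 (hb b)

lemma alt_append (r : ℕ) (qs : List Bool) : ∀ R : List Bool → Prop,
    Alt (qs ++ List.replicate r true) R ↔
      Alt qs fun l => ∃ l' : List Bool, l'.length = r ∧ R (l ++ l') := by
  induction qs with
  | nil =>
    intro R
    exact alt_true r R
  | cons q qs ih =>
    intro R
    have h1 : ∀ b, Alt (qs ++ List.replicate r true) (fun w => R (b :: w)) ↔
        Alt qs fun l => ∃ l' : List Bool, l'.length = r ∧ R (b :: l ++ l') := fun b =>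
      ih fun w => R (b :: w)
    cases q with
    | true =>
      constructor
      · rintro ⟨b, hb⟩
        exact ⟨b, (h1 b).1 hb⟩
      · rintro ⟨b, hb⟩
        exact ⟨b, (h1 b).2 hb⟩
    | false =>
      constructor
      · intro hb b
        exact (h1 b).1 (hb b)
      · intro hb b
        exact (h1 b).2 (hb b)

/-! ### the functions -/

noncomputable section fn

variable {L v k b : ℕ}

/-- one graph -/
def one (α : Fin L → Bool) (z : (Fin L → Bool) × Edge v → Bool) : Fin 1 × Edge v → Bool :=
  fun e => z (α, e.2)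

/-- the vertex number `c.1` is `c.2` -/
def vtA (L b : ℕ) (c : Fin k × Fin v) : UPPM.Fn ((Fin L → Bool) × Edge v) 0 (L + k * b) :=
  fun _ u w => vt (m := 1) L b c (fun _ => false) u w

/-- the pair of vertices is the edge `e` of the graph `α` -/
def peA (α : Fin L → Bool) (c : Fin k × Fin k) (e : Edge v) :
    UPPM.Fn ((Fin L → Bool) × Edge v) 0 (L + k * b) :=
  fun z u w => z (α, e) && ((vtA L b (c.1, e.1.1) z u w && vtA L b (c.2, e.1.2) z u w) ||
    (vtA L b (c.1, e.1.2) z u w && vtA L b (c.2, e.1.1) z u w))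

/-- all pairs are edges -/
def aeA (α : Fin L → Bool) : UPPM.Fn ((Fin L → Bool) × Edge v) 0 (L + k * b) := fun z u w =>
  (prs k).all fun c => (Finset.univ : Finset (Edge v)).toList.any fun e =>
    peA (b := b) α c e z u w

/-- the address is `α` -/
def isA (v k b : ℕ) (α : Fin L → Bool) : UPPM.Fn ((Fin L → Bool) × Edge v) 0 (L + k * b) :=
  fun _ _ w => (Finset.univ : Finset (Fin L)).toList.all fun p => w (Fin.castAdd (k * b) p) == α p

/-- the output -/
def ouA (L v k b : ℕ) : UPPM.Fn ((Fin L → Bool) × Edge v) 0 (L + k * b) := fun z u w =>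
  (Finset.univ : Finset (Fin L → Bool)).toList.any fun α =>
    isA v k b α z u w && aeA (k := k) (b := b) α z u w

lemma aeA_eq (α : Fin L → Bool) (z : (Fin L → Bool) × Edge v → Bool) (u : Fin 0 → Bool)
    (w : Fin (L + k * b) → Bool) :
    aeA (k := k) (b := b) α z u w = ae (m := 1) (k := k) (a := L) (b := b) 0 (one α z) u w := rfl

lemma isA_iff (α : Fin L → Bool) (z : (Fin L → Bool) × Edge v → Bool) (u : Fin 0 → Bool)
    (w : Fin (L + k * b) → Bool) :
    isA v k b α z u w = true ↔ ∀ p : Fin L, w (Fin.castAdd (k * b) p) = α p := by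
  unfold isA
  rw [List.all_eq_true]
  simp [Finset.mem_toList]

lemma ouA_iff (z : (Fin L → Bool) × Edge v → Bool) (u : Fin 0 → Bool)
    (w : Fin (L + k * b) → Bool) :
    ouA L v k b z u w = true ↔ ∃ α : Fin L → Bool, isA v k b α z u w = true ∧
      ae (m := 1) (k := k) (a := L) (b := b) 0 (one α z) u w = true := by
  unfold ouA
  rw [List.any_eq_true]
  constructor
  · rintro ⟨α, -, h⟩
    rw [Bool.and_eq_true] at h
    exact ⟨α, h.1, h.2⟩
  · rintro ⟨α, h1, h2⟩
    refine ⟨α, Finset.mem_toList.2 (Finset.mem_univ α), ?_⟩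
    rw [Bool.and_eq_true]
    exact ⟨h1, h2⟩

/-- the functions of the second stage -/
def F2A (L v k b : ℕ) : UPPM.Fn ((Fin L → Bool) × Edge v) 0 (L + k * b) → Prop :=
  fun h => Ba h ∨ ∃ c : Fin k × Fin v, h = vtA L b c

lemma cm_vtA (c : Fin k × Fin v) :
    Cm (Ba (E := (Fin L → Bool) × Edge v) (s := 0) (t := L + k * b)) b (vtA L b c) := by
  have h := cm_all (F := Ba (E := (Fin L → Bool) × Edge v) (s := 0) (t := L + k * b)) (n := 0)
    (Or.inr (Or.inl ⟨true, rfl⟩)) (fun p : Fin b => Cm.base (ba_eq (px L c.1 p)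
      ((c.2 : ℕ).testBit p))) (Finset.univ : Finset (Fin b)).toList
  rw [Finset.length_toList, Finset.card_univ, Fintype.card_fin, zero_add, one_mul] at h
  exact h

lemma cm_ouA : Cm (F2A L v k b)
    ((L + ((4 + 1) * Fintype.card (Edge v) + 1) * (prs k).length + 1 + 1) * 2 ^ L)
    (ouA L v k b) := by
  have hT : F2A L v k b (fun _ _ _ => true) := Or.inl (Or.inr (Or.inl ⟨true, rfl⟩))
  have hF : F2A L v k b (fun _ _ _ => false) := Or.inl (Or.inr (Or.inl ⟨false, rfl⟩))
  have hv : ∀ c : Fin k × Fin v, Cm (F2A L v k b) 0 (vtA L b c) := fun c =>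
    Cm.base (Or.inr ⟨c, rfl⟩)
  have hpe : ∀ (α : Fin L → Bool) (c : Fin k × Fin k) (e : Edge v),
      Cm (F2A L v k b) 4 (peA (b := b) α c e) := fun α c e =>
    Cm.and (Cm.base (Or.inl (Or.inl ⟨(α, e), rfl⟩)))
      (Cm.or (Cm.and (hv (c.1, e.1.1)) (hv (c.2, e.1.2)))
        (Cm.and (hv (c.1, e.1.2)) (hv (c.2, e.1.1))))
  have hae : ∀ α : Fin L → Bool, Cm (F2A L v k b)
      (((4 + 1) * Fintype.card (Edge v) + 1) * (prs k).length)
      (aeA (k := k) (b := b) α) := by
    intro α
    refine cm_all hT (fun c => ?_) (prs k)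
    have h := cm_any hF (fun e => hpe α c e) (Finset.univ : Finset (Edge v)).toList
    rw [Finset.length_toList, Finset.card_univ] at h
    exact h
  have his : ∀ α : Fin L → Bool, Cm (F2A L v k b) L (isA v k b α) := by
    intro α
    have h := cm_all (n := 0) hT (fun p : Fin L => Cm.base (F := F2A L v k b) (Or.inl
      (ba_eq (Fin.castAdd (k * b) p) (α p))))
      (Finset.univ : Finset (Fin L)).toList
    rw [Finset.length_toList, Finset.card_univ, Fintype.card_fin, zero_add, one_mul] at h
    exact h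
  have h := cm_any hF (fun α : Fin L → Bool => Cm.and (his α) (hae α))
    (Finset.univ : Finset (Fin L → Bool)).toList
  rw [Finset.length_toList, Finset.card_univ, Fintype.card_fun, Fintype.card_bool,
    Fintype.card_fin] at h
  exact h

/-- one address -/
lemma game1 (hvb : v ≤ 2 ^ b) (hk : 1 ≤ k) (hkv : k ≤ v)
    (z : (Fin L → Bool) × Edge v → Bool) (u : List Bool → Fin 0 → Bool) (l : List Bool)
    (hl : l.length = L) :
    (∃ l' : List Bool, l'.length = k * b ∧
      ouA L v k b z (u (l ++ l')) (ww (L + k * b) (l ++ l')) = true) ↔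
      clq v k (fun e => z (fun j => l.getD j false, e)) = true := by
  constructor
  · rintro ⟨l', -, h⟩
    obtain ⟨α, h1, h2⟩ := (ouA_iff z _ _).1 h
    have h3 : α = fun j : Fin L => l.getD j false := by
      funext p
      rw [← (isA_iff α z _ _).1 h1 p, ww_left hl]
    have h4 := clq_ae hvb hk hkv h2
    rw [h3] at h4
    exact h4
  · intro hcl
    have hcl' := hcl
    unfold clq at hcl'
    rw [decide_eq_true_eq] at hcl'
    obtain ⟨S, hS, hc⟩ := hcl'
    refine ⟨List.ofFn fun q : Fin (k * b) =>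
      (S.orderEmbOfFin hS (finProdFinEquiv.symm q).1 : ℕ).testBit (finProdFinEquiv.symm q).2,
      List.length_ofFn, ?_⟩
    rw [ouA_iff]
    refine ⟨fun j : Fin L => l.getD j false, ?_, ?_⟩
    · rw [isA_iff]
      intro p
      rw [ww_left hl]
    · apply ae_clq hS hc
      intro j p
      unfold px
      rw [ww_right hl, getD_ofFn, Equiv.symm_apply_apply]

end fn

end UPCM

open UPCM Pool.Agent.NPP.UPPM in
theorem UPC_thm : Stmt_UPC := by
  intro qs L v k hqs hk hkv hv
  have hvb : v ≤ 2 ^ Nat.clog 2 v := Nat.le_pow_clog (by norm_num) v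
  have hb : Nat.clog 2 v ≤ v := Nat.clog_le_of_le_pow (Nat.lt_two_pow_self).le
  obtain ⟨C, h1, h2, h3, h4⟩ := two (vtA L (Nat.clog 2 v)) (ouA L v k (Nat.clog 2 v)) cm_vtA cm_ouA
  refine ⟨C, h1, h2, ?_, fun z => ?_⟩
  · rw [Fintype.card_prod, Fintype.card_fin, Fintype.card_fin] at h3
    have h5 := bound (m := 2 ^ L) (a := L) Nat.one_le_two_pow hk hv hb (card_edge v) (len_prs k)
    exact (h3.trans h5).trans (Nat.mul_le_mul_right _ (by norm_num))
  · unfold Pool.Agent.NPP.Pspace AltClq
    rw [alt_append]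
    apply alt_iff
    intro l hl
    simp only [h4]
    exact game1 hvb hk hkv z (fun l i => l.getD (i.elim0) false) l (hl.trans hqs)

end Pool.Agent.NCH
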